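import Pool.Agent.R535.SM.Prob

set_option autoImplicit false

/-!
# Laws with bounded densities
-/

namespace Pool.Agent.R535.SM

open MeasureTheory

/-- Bounded density and bounded first absolute moment. -/
theorem spread_of_density (s : ℕ) (μ : Measure ℝ)
    (h1 : ∀ A : Set ℝ, μ A ≤ 2 ^ s * volume A)
    (h2 : ∫⁻ x, ENNReal.ofReal |x| ∂μ ≤ 2 ^ s) : Spread (s + 1) μ := by
  have key : ∀ t : ℕ, (2 ^ s : ENNReal) * (2 ^ ((s + 1) * (t + 1)))⁻¹ ≤ (2 ^ t)⁻¹ := by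
    intro t
    have e : (s + 1) * (t + 1) = (s * t + t + 1) + s := by ring
    rw [e, pow_add _ _ s, ENNReal.mul_inv (Or.inr (by finiteness)) (Or.inr (by positivity)),
      mul_comm, mul_assoc, ENNReal.inv_mul_cancel (by positivity) (by finiteness), mul_one]
    refine ENNReal.inv_le_inv.2 (pow_le_pow_right₀ (by norm_num) ?_)
    have := Nat.zero_le (s * t)
    omega
  intro t
  have hpow : ENNReal.ofReal ((2 ^ ((s + 1) * (t + 1)))⁻¹) = (2 ^ ((s + 1) * (t + 1)))⁻¹ := by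
    rw [ENNReal.ofReal_inv_of_pos (by positivity), ENNReal.ofReal_pow (by norm_num)]
    norm_num
  refine ⟨fun u => ?_, ?_⟩
  · refine (h1 _).trans ?_
    rw [Real.volume_Icc, add_sub_cancel_left, hpow]
    exact key t
  · have h3 : {x : ℝ | (2 : ℝ) ^ ((s + 1) * (t + 1)) < |x|} ⊆
        {x : ℝ | (2 : ENNReal) ^ ((s + 1) * (t + 1)) ≤ ENNReal.ofReal |x|} := by
      intro x hx
      have h4 : (2 : ENNReal) ^ ((s + 1) * (t + 1)) =
          ENNReal.ofReal (2 ^ ((s + 1) * (t + 1))) := by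
        rw [ENNReal.ofReal_pow (by norm_num)]
        norm_num
      change (2 : ENNReal) ^ ((s + 1) * (t + 1)) ≤ ENNReal.ofReal |x|
      rw [h4]
      exact ENNReal.ofReal_le_ofReal (le_of_lt hx)
    have h5 : AEMeasurable (fun x : ℝ => ENNReal.ofReal |x|) μ :=
      (continuous_abs.measurable.ennreal_ofReal).aemeasurable
    calc μ {x : ℝ | (2 : ℝ) ^ ((s + 1) * (t + 1)) < |x|}
        ≤ μ {x : ℝ | (2 : ENNReal) ^ ((s + 1) * (t + 1)) ≤ ENNReal.ofReal |x|} :=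
          measure_mono h3
      _ ≤ (∫⁻ x, ENNReal.ofReal |x| ∂μ) / 2 ^ ((s + 1) * (t + 1)) :=
          meas_ge_le_lintegral_div h5 (by positivity) (by finiteness)
      _ ≤ 2 ^ s / 2 ^ ((s + 1) * (t + 1)) := by gcongr
      _ = 2 ^ s * (2 ^ ((s + 1) * (t + 1)))⁻¹ := by rw [ENNReal.div_eq_inv_mul, mul_comm]
      _ ≤ (2 ^ t)⁻¹ := key t

end Pool.Agent.R535.SM
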