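import Mathlib

set_option autoImplicit false

/-!
# Ratios of entries of elementary vectors, after changing one row or one column
-/

namespace Pool.Agent.R535.SM

section

variable {m n : ℕ}

/-- The left kernel. -/
def lk (A : Matrix (Fin m) (Fin n) ℝ) : Submodule ℝ (Fin m → ℝ) :=
  LinearMap.ker (Matrix.vecMulLinear A)

/-- Codimension at most one. -/
def Hp (L L' : Submodule ℝ (Fin m → ℝ)) : Prop :=
  L ≤ L' ∧ Module.finrank ℝ L' ≤ Module.finrank ℝ L + 1

/-- Elementary vectors. -/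
def El (L : Submodule ℝ (Fin m → ℝ)) (C : Fin m → ℝ) : Prop :=
  C ∈ L ∧ C ≠ 0 ∧ ∀ D ∈ L, (∀ i, C i = 0 → D i = 0) → ∃ l : ℝ, D = l • C

/-- The vectors supported in `I`. -/
def sup (I : Fin m → Prop) (L : Submodule ℝ (Fin m → ℝ)) : Submodule ℝ (Fin m → ℝ) where
  carrier := {C | C ∈ L ∧ ∀ i, ¬ I i → C i = 0}
  add_mem' := by
    intro a b ha hb
    refine ⟨L.add_mem ha.1 hb.1, fun i hi => ?_⟩
    rw [Pi.add_apply, ha.2 i hi, hb.2 i hi, add_zero]
  zero_mem' := ⟨L.zero_mem, fun _ _ => rfl⟩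
  smul_mem' := by
    intro l a ha
    refine ⟨L.smul_mem l ha.1, fun i hi => ?_⟩
    rw [Pi.smul_apply, ha.2 i hi, smul_zero]

theorem mem_lk {A : Matrix (Fin m) (Fin n) ℝ} {C : Fin m → ℝ} :
    C ∈ lk A ↔ ∀ j, ∑ i, C i * A i j = 0 := by
  unfold lk
  rw [LinearMap.mem_ker]
  constructor
  · intro h j
    exact congrFun h j
  · intro h
    funext j
    exact h j

/-- A choice of columns. -/
theorem cols {r : ℕ} (M : Matrix (Fin r) (Fin n) ℝ) (h : LinearIndependent ℝ M.row) :
    ∃ c : Fin r → Fin n, (M.submatrix id c).det ≠ 0 := by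
  classical
  have hrank : M.rank = r := by
    rw [h.rank_matrix, Fintype.card_fin]
  rw [M.rank_eq_finrank_span_cols] at hrank
  obtain ⟨κ', a, ha, hspan, hli⟩ := exists_linearIndependent' ℝ M.col
  have hfin : Finite κ' := hli.finite
  have : Fintype κ' := Fintype.ofFinite κ'
  have hcard : Fintype.card κ' = r := by
    rw [linearIndependent_iff_card_eq_finrank_span.1 hli, Set.finrank, hspan, hrank]
  obtain ⟨e⟩ : Nonempty (Fin r ≃ κ') := by
    rw [← Fintype.card_eq, Fintype.card_fin, hcard]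
  refine ⟨fun j => a (e j), ?_⟩
  have h2 : (M.submatrix id fun j => a (e j)).col = (M.col ∘ a) ∘ e := by
    funext j i
    rfl
  have h3 : LinearIndependent ℝ (M.submatrix id fun j => a (e j)).col := by
    rw [h2]
    exact hli.comp _ e.injective
  have h4 := Matrix.linearIndependent_cols_iff_isUnit.1 h3
  exact ((Matrix.isUnit_iff_isUnit_det _).1 h4).ne_zero

/-- Cramer's rule for elementary vectors. -/
theorem cramer {A : Matrix (Fin m) (Fin n) ℝ} {I : Fin m → Prop} {C : Fin m → ℝ}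
    (hC : El (sup I (lk A)) C) {i j : Fin m} (hij : i ≠ j) (hi : C i ≠ 0) (hj : C j ≠ 0) :
    ∃ k : ℕ, k ≤ m ∧ ∃ (f f' : Fin k → Fin m) (h : Fin k → Fin n), (∀ a, I (f a)) ∧
      (∀ a, I (f' a)) ∧ (A.submatrix f h).det ≠ 0 ∧
      (A.submatrix f' h).det = -(C i / C j) * (A.submatrix f h).det := by
  classical
  obtain ⟨hCm, hC0, hCe⟩ := hC
  obtain ⟨hCk, hCI⟩ := hCm
  rw [mem_lk] at hCk
  have hI : ∀ c, C c ≠ 0 → I c := fun c hc => by
    by_contra h
    exact hc (hCI c h)
  obtain ⟨T, hT⟩ : ∃ T : Finset (Fin m), T = Finset.univ.filter fun c => C c ≠ 0 ∧ c ≠ j :=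
    ⟨_, rfl⟩
  have memT : ∀ c, c ∈ T ↔ C c ≠ 0 ∧ c ≠ j := fun c => by rw [hT]; simp
  have hkm : T.card ≤ m := (Finset.card_le_univ T).trans (by simp)
  obtain ⟨e⟩ : Nonempty (Fin T.card ≃ T) := ⟨T.equivFin.symm⟩
  obtain ⟨f, hf⟩ : ∃ f : Fin T.card → Fin m, f = fun a => ((e a : T) : Fin m) := ⟨_, rfl⟩
  have hfinj : Function.Injective f := by
    rw [hf]
    exact fun a b hab => e.injective (Subtype.ext hab)
  have hfT : ∀ a, C (f a) ≠ 0 ∧ f a ≠ j := fun a => by
    rw [hf]
    exact (memT _).1 (e a).2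
  have hsurj : ∀ c, C c ≠ 0 → c ≠ j → ∃ a, f a = c := fun c h1 h2 => by
    refine ⟨e.symm ⟨c, (memT c).2 ⟨h1, h2⟩⟩, ?_⟩
    rw [hf]
    simp
  -- independence of the rows
  have hli : LinearIndependent ℝ (A.submatrix f id).row := by
    rw [Fintype.linearIndependent_iff]
    intro g hg
    obtain ⟨D, hD⟩ : ∃ D : Fin m → ℝ, D = Function.extend f g 0 := ⟨_, rfl⟩
    have hDf : ∀ a, D (f a) = g a := fun a => by rw [hD, hfinj.extend_apply]
    have hDn : ∀ c, (∀ a, f a ≠ c) → D c = 0 := fun c hc => by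
      rw [hD, Function.extend_apply' _ _ _ (by rintro ⟨a, ha⟩; exact hc a ha)]
      rfl
    have hDL : D ∈ sup I (lk A) := by
      refine ⟨?_, fun c hc => hDn c fun a ha => hc (hI c (ha ▸ (hfT a).1))⟩
      rw [mem_lk]
      intro col
      have h1 := congrFun hg col
      rw [Finset.sum_apply] at h1
      have h2 : ∑ a, (g a • (A.submatrix f id).row a) col = ∑ c, D c * A c col := by
        refine Fintype.sum_of_injective f hfinj _ _ ?_ ?_
        · intro c hc
          rw [hDn c fun a ha => hc ⟨a, ha⟩, zero_mul]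
        · intro a
          rw [hDf]
          rfl
      rw [← h2]
      exact h1
    obtain ⟨l, hl⟩ := hCe D hDL (by
      intro c hc
      exact hDn c fun a ha => (hfT a).1 (ha ▸ hc))
    have hl0 : l = 0 := by
      have h1 : D j = l * C j := congrFun hl j
      rw [hDn j fun a ha => (hfT a).2 ha] at h1
      rcases mul_eq_zero.1 h1.symm with h3 | h3
      · exact h3
      · exact absurd h3 hj
    intro a
    rw [← hDf, hl, hl0, zero_smul]
    rfl
  obtain ⟨h, hdet⟩ := cols (A.submatrix f id) hli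
  have hsub : (A.submatrix f id).submatrix id h = A.submatrix f h := rfl
  rw [hsub] at hdet
  obtain ⟨k0, hk0⟩ := hsurj i hi hij
  refine ⟨T.card, hkm, f, Function.update f k0 j, h, fun a => hI _ (hfT a).1, ?_, hdet, ?_⟩
  · intro a
    by_cases ha : a = k0
    · rw [ha, Function.update_self]
      exact hI j hj
    · rw [Function.update_of_ne ha]
      exact hI _ (hfT a).1
  have hrow : ∀ col, A j col = ∑ a, -(C (f a) / C j) * A (f a) col := by
    intro col
    have h1 : ∑ a, C (f a) * A (f a) col = ∑ c, (if c = j then 0 else C c) * A c col := by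
      refine Fintype.sum_of_injective f hfinj _ _ ?_ ?_
      · intro c hc
        by_cases hcj : c = j
        · rw [if_pos hcj, zero_mul]
        · rw [if_neg hcj]
          have : C c = 0 := by
            by_contra hne
            obtain ⟨a, ha⟩ := hsurj c hne hcj
            exact hc ⟨a, ha⟩
          rw [this, zero_mul]
      · intro a
        rw [if_neg (hfT a).2]
    have h2 := hCk col
    rw [← Finset.add_sum_erase _ _ (Finset.mem_univ j)] at h2
    have h3 : ∑ c, (if c = j then 0 else C c) * A c col =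
        ∑ c ∈ Finset.univ.erase j, C c * A c col := by
      rw [← Finset.add_sum_erase _ _ (Finset.mem_univ j), if_pos rfl, zero_mul, zero_add]
      refine Finset.sum_congr rfl fun c hc => ?_
      rw [if_neg (Finset.ne_of_mem_erase hc)]
    have h4 : ∑ a, -(C (f a) / C j) * A (f a) col = -(∑ a, C (f a) * A (f a) col) / C j := by
      rw [neg_div, Finset.sum_div, ← Finset.sum_neg_distrib]
      refine Finset.sum_congr rfl fun a _ => ?_
      ring
    rw [h4, h1, h3]
    field_simp
    linarith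
  have hmat : A.submatrix (Function.update f k0 j) h
      = (A.submatrix f h).updateRow k0
        (∑ a, (fun a => -(C (f a) / C j)) a • (A.submatrix f h) a) := by
    ext a d
    by_cases hak : a = k0
    · subst hak
      rw [Matrix.updateRow_self, Matrix.submatrix_apply, Function.update_self, hrow (h d),
        Finset.sum_apply]
      rfl
    · rw [Matrix.updateRow_ne hak, Matrix.submatrix_apply, Function.update_of_ne hak]
      rfl
  rw [hmat, Matrix.det_updateRow_sum, hk0, smul_eq_mul]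

/-- Cutting by one linear form. -/
theorem finrank_cut (L : Submodule ℝ (Fin m → ℝ)) (f : (Fin m → ℝ) →ₗ[ℝ] ℝ) :
    Module.finrank ℝ L ≤ Module.finrank ℝ (L ⊓ LinearMap.ker f : Submodule ℝ (Fin m → ℝ)) + 1 := by
  have h1 := Submodule.finrank_sup_add_finrank_inf_eq L (LinearMap.ker f)
  have h2 := LinearMap.finrank_range_add_finrank_ker f
  have h3 : Module.finrank ℝ (LinearMap.range f) ≤ 1 := by
    have := Submodule.finrank_le (LinearMap.range f)
    simpa using this
  have h4 : Module.finrank ℝ (L ⊔ LinearMap.ker f : Submodule ℝ (Fin m → ℝ)) ≤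
      Module.finrank ℝ (Fin m → ℝ) := Submodule.finrank_le _
  omega

/-- All nonzero minors of order at most the number of rows are between `2 ^ (-R)` and `2 ^ R` in
absolute value. -/
def Minors (R : ℕ) (A : Matrix (Fin m) (Fin n) ℝ) : Prop :=
  ∀ (k : ℕ), k ≤ m → ∀ (f : Fin k → Fin m) (h : Fin k → Fin n), (A.submatrix f h).det ≠ 0 →
    (2 ^ R : ℝ)⁻¹ ≤ |(A.submatrix f h).det| ∧ |(A.submatrix f h).det| ≤ 2 ^ R

/-- The matrices differ in at most one row, or in at most one column. -/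
def Near (A B : Matrix (Fin m) (Fin n) ℝ) : Prop :=
  (∃ i₀, ∀ i j, i ≠ i₀ → B i j = A i j) ∨ ∃ j₀, ∀ i j, j ≠ j₀ → B i j = A i j

/-- All ratios are between `2 ^ (-2 R)` and `2 ^ (2 R)`. -/
def Ratios (R : ℕ) (L : Submodule ℝ (Fin m → ℝ)) : Prop :=
  ∀ C, El L C → ∀ i j, C i ≠ 0 → C j ≠ 0 →
    (2 ^ (2 * R) : ℝ)⁻¹ ≤ |C i / C j| ∧ |C i / C j| ≤ 2 ^ (2 * R)

theorem ratio_bounds {R : ℕ} {a b c : ℝ} (hb : b ≠ 0) (h : a = -c * b)
    (h1 : (2 ^ R : ℝ)⁻¹ ≤ |a|) (h2 : |a| ≤ 2 ^ R) (h3 : (2 ^ R : ℝ)⁻¹ ≤ |b|) (h4 : |b| ≤ 2 ^ R) :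
    (2 ^ (2 * R) : ℝ)⁻¹ ≤ |c| ∧ |c| ≤ 2 ^ (2 * R) := by
  have hc : |c| = |a| / |b| := by
    rw [h, abs_mul, abs_neg]
    field_simp
  have hb0 : 0 < |b| := abs_pos.2 hb
  have hp : (0 : ℝ) < 2 ^ R := by positivity
  have e : (2 : ℝ) ^ (2 * R) = 2 ^ R * 2 ^ R := by rw [two_mul, pow_add]
  rw [hc]
  constructor
  · rw [le_div_iff₀ hb0, e, mul_inv]
    calc (2 ^ R : ℝ)⁻¹ * (2 ^ R)⁻¹ * |b| ≤ (2 ^ R : ℝ)⁻¹ * (2 ^ R)⁻¹ * 2 ^ R := by gcongr
      _ = (2 ^ R : ℝ)⁻¹ := by field_simp
      _ ≤ |a| := h1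
  · rw [div_le_iff₀ hb0, e]
    calc |a| ≤ 2 ^ R := h2
      _ = 2 ^ R * 2 ^ R * (2 ^ R : ℝ)⁻¹ := by field_simp
      _ ≤ 2 ^ R * 2 ^ R * |b| := by gcongr

/-- The main deterministic statement. -/
theorem near_ratios {R : ℕ} {A B : Matrix (Fin m) (Fin n) ℝ} (hA : Minors R A) (h : Near A B) :
    ∃ L : Submodule ℝ (Fin m → ℝ), (Hp L (lk B) ∨ Hp (lk B) L) ∧ Ratios R L := by
  classical
  have one : ∀ C : Fin m → ℝ, ∀ j, C j ≠ 0 →
      (2 ^ (2 * R) : ℝ)⁻¹ ≤ |C j / C j| ∧ |C j / C j| ≤ 2 ^ (2 * R) := fun C j hj => by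
    rw [div_self hj, abs_one]
    exact ⟨inv_le_one_of_one_le₀ (one_le_pow₀ (by norm_num)), one_le_pow₀ (by norm_num)⟩
  rcases h with ⟨i₀, hi₀⟩ | ⟨j₀, hj₀⟩
  · refine ⟨sup (fun i => i ≠ i₀) (lk B), Or.inl ⟨fun C hC => hC.1, ?_⟩, ?_⟩
    · have h1 := finrank_cut (lk B) (LinearMap.proj i₀ : (Fin m → ℝ) →ₗ[ℝ] ℝ)
      have h2 : (lk B ⊓ LinearMap.ker (LinearMap.proj i₀ : (Fin m → ℝ) →ₗ[ℝ] ℝ)) =
          sup (fun i => i ≠ i₀) (lk B) := by
        ext C
        rw [Submodule.mem_inf, LinearMap.mem_ker]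
        constructor
        · rintro ⟨h3, h4⟩
          refine ⟨h3, fun i hi => ?_⟩
          rw [not_not] at hi
          rw [hi]
          exact h4
        · rintro ⟨h3, h4⟩
          exact ⟨h3, h4 i₀ (fun h => h rfl)⟩
      rw [h2] at h1
      exact h1
    · intro C hC i j hi hj
      by_cases hij : i = j
      · rw [hij]
        exact one C j hj
      obtain ⟨k, hk, f, f', h, hf, hf', hd, hd'⟩ := cramer hC hij hi hj
      have e1 : B.submatrix f h = A.submatrix f h := by
        ext a b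
        exact hi₀ _ _ (hf a)
      have e2 : B.submatrix f' h = A.submatrix f' h := by
        ext a b
        exact hi₀ _ _ (hf' a)
      have hne : (B.submatrix f' h).det ≠ 0 := by
        rw [hd']
        exact mul_ne_zero (neg_ne_zero.2 (div_ne_zero hi hj)) hd
      have a1 := hA k hk f h (by rw [← e1]; exact hd)
      have a2 := hA k hk f' h (by rw [← e2]; exact hne)
      rw [← e1] at a1
      rw [← e2] at a2
      exact ratio_bounds hd hd' a2.1 a2.2 a1.1 a1.2
  · obtain ⟨A0, hA0⟩ : ∃ A0 : Matrix (Fin m) (Fin n) ℝ,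
        A0 = fun i j => if j = j₀ then 0 else A i j := ⟨_, rfl⟩
    refine ⟨lk A0, Or.inr ⟨?_, ?_⟩, ?_⟩
    · intro C hC
      rw [mem_lk] at hC ⊢
      intro j
      by_cases hj : j = j₀
      · refine Finset.sum_eq_zero fun i _ => ?_
        rw [hA0]
        simp [hj]
      · rw [← hC j]
        refine Finset.sum_congr rfl fun i _ => ?_
        rw [hA0, hj₀ i j hj]
        simp [hj]
    · have h1 := finrank_cut (lk A0)
        ((LinearMap.proj j₀ : (Fin n → ℝ) →ₗ[ℝ] ℝ).comp (Matrix.vecMulLinear B))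
      have h2 : (lk A0 ⊓ LinearMap.ker
          ((LinearMap.proj j₀ : (Fin n → ℝ) →ₗ[ℝ] ℝ).comp (Matrix.vecMulLinear B))) = lk B := by
        ext C
        rw [Submodule.mem_inf, LinearMap.mem_ker, mem_lk, mem_lk]
        constructor
        · rintro ⟨h3, h4⟩ j
          by_cases hj : j = j₀
          · rw [hj]
            exact h4
          · rw [← h3 j]
            refine Finset.sum_congr rfl fun i _ => ?_
            rw [hA0, hj₀ i j hj]
            simp [hj]
        · intro h3
          refine ⟨fun j => ?_, h3 j₀⟩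
          by_cases hj : j = j₀
          · refine Finset.sum_eq_zero fun i _ => ?_
            rw [hA0]
            simp [hj]
          · rw [← h3 j]
            refine Finset.sum_congr rfl fun i _ => ?_
            rw [hA0, hj₀ i j hj]
            simp [hj]
      rw [h2] at h1
      exact h1
    · intro C hC i j hi hj
      by_cases hij : i = j
      · rw [hij]
        exact one C j hj
      have hC' : El (sup (fun _ => True) (lk A0)) C := by
        obtain ⟨c1, c2, c3⟩ := hC
        exact ⟨⟨c1, fun i hi => absurd trivial hi⟩, c2, fun D hD => c3 D hD.1⟩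
      obtain ⟨k, hk, f, f', h, -, -, hd, hd'⟩ := cramer hC' hij hi hj
      have hcol : ∀ b, h b ≠ j₀ := by
        intro b hb
        apply hd
        refine Matrix.det_eq_zero_of_column_eq_zero b fun a => ?_
        rw [Matrix.submatrix_apply, hA0]
        simp [hb]
      have e1 : A0.submatrix f h = A.submatrix f h := by
        ext a b
        rw [Matrix.submatrix_apply, Matrix.submatrix_apply, hA0]
        simp [hcol b]
      have e2 : A0.submatrix f' h = A.submatrix f' h := by
        ext a b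
        rw [Matrix.submatrix_apply, Matrix.submatrix_apply, hA0]
        simp [hcol b]
      have hne : (A0.submatrix f' h).det ≠ 0 := by
        rw [hd']
        exact mul_ne_zero (neg_ne_zero.2 (div_ne_zero hi hj)) hd
      have a1 := hA k hk f h (by rw [← e1]; exact hd)
      have a2 := hA k hk f' h (by rw [← e2]; exact hne)
      rw [← e1] at a1
      rw [← e2] at a2
      exact ratio_bounds hd hd' a2.1 a2.2 a1.1 a1.2

end

end Pool.Agent.R535.SM
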