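import Pool.Agent.R535.SM.Det

set_option autoImplicit false

/-!
# Row factors and column operations
-/

namespace Pool.Agent.R535.SM

section

variable {m n : ℕ}

/-- Up to nonzero factors of the rows and an invertible matrix on the right, `B'` differs from `A`
in at most one row or in at most one column. -/
def Reach (A B' : Matrix (Fin m) (Fin n) ℝ) : Prop :=
  ∃ (ρ : Fin m → ℝ) (B : Matrix (Fin m) (Fin n) ℝ) (G : Matrix (Fin n) (Fin n) ℝ),
    (∀ i, ρ i ≠ 0) ∧ G.det ≠ 0 ∧ Near A B ∧ ∀ i j, ρ i * B' i j = (B * G) i j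

/-- Factors of the coordinates. -/
noncomputable def sc (ρ : Fin m → ℝ) (h : ∀ i, ρ i ≠ 0) : (Fin m → ℝ) ≃ₗ[ℝ] (Fin m → ℝ) where
  toFun C i := ρ i * C i
  invFun C i := C i / ρ i
  map_add' a b := by
    funext i
    simp only [Pi.add_apply]
    ring
  map_smul' l a := by
    funext i
    simp only [Pi.smul_apply, smul_eq_mul, RingHom.id_apply]
    ring
  left_inv a := by
    funext i
    exact mul_div_cancel_left₀ _ (h i)
  right_inv a := by
    funext i
    exact mul_div_cancel₀ _ (h i)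

theorem hp_map {L L' : Submodule ℝ (Fin m → ℝ)} (e : (Fin m → ℝ) ≃ₗ[ℝ] (Fin m → ℝ))
    (h : Hp L L') : Hp (L.map e.toLinearMap) (L'.map e.toLinearMap) := by
  refine ⟨Submodule.map_mono h.1, ?_⟩
  rw [LinearEquiv.finrank_map_eq e L, LinearEquiv.finrank_map_eq e L']
  exact h.2

theorem lk_map {ρ : Fin m → ℝ} (hρ : ∀ i, ρ i ≠ 0) {B B' : Matrix (Fin m) (Fin n) ℝ}
    {G : Matrix (Fin n) (Fin n) ℝ} (hG : G.det ≠ 0) (h : ∀ i j, ρ i * B' i j = (B * G) i j) :
    lk B' = (lk B).map (sc ρ hρ).toLinearMap := by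
  have key : ∀ C : Fin m → ℝ, (fun i => ρ i * C i) ∈ lk B' ↔ C ∈ lk B := by
    intro C
    have h1 : B'.vecMul (fun i => ρ i * C i) = G.vecMul (B.vecMul C) := by
      rw [Matrix.vecMul_vecMul]
      funext j
      simp only [Matrix.vecMul, dotProduct]
      refine Finset.sum_congr rfl fun i _ => ?_
      rw [← h i j]
      ring
    have h2 : ∀ (D : Fin m → ℝ) (M : Matrix (Fin m) (Fin n) ℝ), D ∈ lk M ↔ M.vecMul D = 0 :=
      fun D M => by
        unfold lk
        rw [LinearMap.mem_ker]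
        rfl
    rw [h2, h2, h1]
    constructor
    · exact fun h => Matrix.eq_zero_of_vecMul_eq_zero hG h
    · intro h
      rw [h, Matrix.zero_vecMul]
  ext D
  rw [Submodule.mem_map]
  constructor
  · intro hD
    refine ⟨fun i => D i / ρ i, ?_, ?_⟩
    · rw [← key]
      have : (fun i => ρ i * (D i / ρ i)) = D := by
        funext i
        exact mul_div_cancel₀ _ (hρ i)
      rw [this]
      exact hD
    · funext i
      exact mul_div_cancel₀ _ (hρ i)
  · rintro ⟨C, hC, rfl⟩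
    exact (key C).2 hC

theorem el_map {L : Submodule ℝ (Fin m → ℝ)} {ρ : Fin m → ℝ} (hρ : ∀ i, ρ i ≠ 0)
    {D : Fin m → ℝ} (hD : El (L.map (sc ρ hρ).toLinearMap) D) : El L (fun i => D i / ρ i) := by
  obtain ⟨h1, h2, h3⟩ := hD
  obtain ⟨C, hC, rfl⟩ := h1
  have e : (fun i => (sc ρ hρ).toLinearMap C i / ρ i) = C := by
    funext i
    exact mul_div_cancel_left₀ _ (hρ i)
  rw [e]
  refine ⟨hC, fun h => h2 (by rw [h, map_zero]), fun E hE hs => ?_⟩
  obtain ⟨l, hl⟩ := h3 ((sc ρ hρ).toLinearMap E) ⟨E, hE, rfl⟩ (by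
    intro i hi
    have h4 : ρ i * C i = 0 := hi
    have h5 : C i = 0 := (mul_eq_zero.1 h4).resolve_left (hρ i)
    change ρ i * E i = 0
    rw [hs i h5, mul_zero])
  refine ⟨l, (sc ρ hρ).injective ?_⟩
  rw [map_smul]
  exact hl

/-- Few scales, in the form used by the algorithm. -/
def Few (r : ℕ) (L : Submodule ℝ (Fin m → ℝ)) : Prop :=
  ∃ S : Fin m → Fin m → Finset ℝ, (∀ i j, (S i j).card ≤ r ∧ ∀ s ∈ S i j, 0 < s) ∧
    ∀ C, El L C → ∀ i j, C i ≠ 0 → C j ≠ 0 → ∃ s ∈ S i j, s ≤ |C i / C j| ∧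
      |C i / C j| ≤ 2 ^ r * s

theorem few_map {R r : ℕ} (hr : 4 * R + 1 ≤ r) {L : Submodule ℝ (Fin m → ℝ)} (hL : Ratios R L)
    {ρ : Fin m → ℝ} (hρ : ∀ i, ρ i ≠ 0) : Few r (L.map (sc ρ hρ).toLinearMap) := by
  classical
  refine ⟨fun i j => {(2 ^ (2 * R) : ℝ)⁻¹ * |ρ i / ρ j|}, fun i j => ⟨?_, ?_⟩, ?_⟩
  · rw [Finset.card_singleton]
    omega
  · intro s hs
    rw [Finset.mem_singleton] at hs
    rw [hs]
    have := abs_pos.2 (div_ne_zero (hρ i) (hρ j))
    positivity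
  · intro D hD i j hi hj
    refine ⟨_, Finset.mem_singleton_self _, ?_⟩
    obtain ⟨h1, h2⟩ := hL _ (el_map hρ hD) i j (div_ne_zero hi (hρ i)) (div_ne_zero hj (hρ j))
    have hpos := abs_pos.2 (div_ne_zero (hρ i) (hρ j))
    have e1 : |D i / D j| = |D i / ρ i / (D j / ρ j)| * |ρ i / ρ j| := by
      rw [← abs_mul]
      congr 1
      have := hρ i
      have := hρ j
      field_simp
    rw [e1]
    constructor
    · exact mul_le_mul_of_nonneg_right h1 hpos.le
    · rw [← mul_assoc]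
      refine mul_le_mul_of_nonneg_right (h2.trans ?_) hpos.le
      have h3 : (2 : ℝ) ^ (4 * R) ≤ 2 ^ r := pow_le_pow_right₀ (by norm_num) (by omega)
      calc (2 : ℝ) ^ (2 * R) = 2 ^ (4 * R) * (2 ^ (2 * R))⁻¹ := by
            rw [show 4 * R = 2 * R + 2 * R by ring, pow_add]
            field_simp
        _ ≤ 2 ^ r * (2 ^ (2 * R))⁻¹ := by gcongr

/-- Matrices with bounded minors: the hypothesis of the algorithm. -/
theorem reach_few {R r : ℕ} (hr : 4 * R + 1 ≤ r) {A B' : Matrix (Fin m) (Fin n) ℝ}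
    (hA : Minors R A) (h : Reach A B') :
    ∃ L : Submodule ℝ (Fin m → ℝ), (Hp L (lk B') ∨ Hp (lk B') L) ∧ Few r L := by
  obtain ⟨ρ, B, G, hρ, hG, hN, hB⟩ := h
  obtain ⟨L, h1, h2⟩ := near_ratios hA hN
  refine ⟨L.map (sc ρ hρ).toLinearMap, ?_, few_map hr h2 hρ⟩
  rw [lk_map hρ hG hB]
  exact h1.imp (hp_map _) (hp_map _)

end

end Pool.Agent.R535.SM
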