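import Pool.Agent.R535.SM.Unif
import Pool.Agent.R535.SM.Scale
import Pool.Agent.Y648.CX.All

set_option autoImplicit false

/-!
# The algorithm on random instances
-/

namespace Pool.Agent.R535.SM

open MeasureTheory Pool.Agent.H558R2 Pool.Agent.H622R3.SM

section

variable {m n : ℕ}

/-- The algorithm decides correctly within `k` elementary steps. -/
def Solves (α : Alg) (k : ℕ) (B : Matrix (Fin m) (Fin n) ℝ) (b : Fin m → ℝ) : Prop :=
  ∃ ans nums steps, run ∅ (α m n) k [] (start B b) = some (ans, nums, steps) ∧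
    (ans = true ↔ ∃ x : Fin n → ℝ, b ≤ B.mulVec x) ∧ steps ≤ k

/-- Few scales is enough. -/
def Works (α : Alg) (p : Polynomial ℕ) : Prop :=
  ∀ (m n : ℕ), 1 ≤ m → 1 ≤ n → ∀ (B : Matrix (Fin m) (Fin n) ℝ) (b : Fin m → ℝ) (r : ℕ),
    (∃ L : Submodule ℝ (Fin m → ℝ), (Hp L (lk B) ∨ Hp (lk B) L) ∧ Few r L) →
    Solves α (p.eval (m + n + r)) B b

theorem exists_works : ∃ p : Polynomial ℕ, Works Pool.Agent.Y648.CS.W.algW p := by
  obtain ⟨p, hp⟩ := Pool.Agent.Y648.CS.V.main.2.2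
  refine ⟨p, fun m n hm hn B b r h => ?_⟩
  obtain ⟨ans, nums, steps, h1, h2, h3, -⟩ := hp m n hm hn B b r h
  exact ⟨ans, nums, steps, h1, h2, h3⟩

/-- The polynomial bound for the size of the minors. -/
noncomputable def radP (Y : Polynomial ℕ) : Polynomial ℕ :=
  (Y * (Y + 1) + 1) * (Y * Y) + (Y * Y + (Y * Y + Y + Y * (Y + 1) * Y) * Y)

theorem rad_le {m N s t a : ℕ} {Y : Polynomial ℕ} (h1 : m ≤ Y.eval a) (h2 : N ≤ Y.eval a)
    (h3 : s ≤ Y.eval a) (h4 : t ≤ Y.eval a) : rad m N s t ≤ (radP Y).eval a := by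
  unfold rad radP
  simp only [Polynomial.eval_add, Polynomial.eval_mul, Polynomial.eval_one]
  gcongr

/-- The precision for one matrix. -/
noncomputable def Y1 : Polynomial ℕ :=
  Polynomial.X + (Polynomial.X + (Polynomial.X + (Polynomial.X + Polynomial.X) * Polynomial.X +
    Polynomial.X + Polynomial.X) + 1)

/-- The precision for all matrices. -/
noncomputable def Y2 : Polynomial ℕ :=
  (Polynomial.X + (Polynomial.X + 1)) + (Polynomial.X + 1) + (Polynomial.X + 1) +
    (Polynomial.X + 1) +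
    (Polynomial.X * (Polynomial.X * Polynomial.X + Polynomial.X + 2)) * Polynomial.X *
      Polynomial.X + (Polynomial.X + (Polynomial.X + (Polynomial.X + Polynomial.X) *
      Polynomial.X + Polynomial.X + Polynomial.X) + 1)

/-- The number of scales. -/
noncomputable def QQ : Polynomial ℕ :=
  Polynomial.X + (4 * radP Y1 + 4 * radP Y2 + 1)

theorem bound1 (m n N s t : ℕ) :
    4 * rad m N s (t + extra m n N s) + 1 ≤ QQ.eval (m + n + N + s + t) - (m + n) := by
  obtain ⟨a, ha⟩ : ∃ a, a = m + n + N + s + t := ⟨_, rfl⟩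
  rw [← ha]
  have hm : m ≤ a := by omega
  have hn : n ≤ a := by omega
  have hN : N ≤ a := by omega
  have hs : s ≤ a := by omega
  have ht : t ≤ a := by omega
  have h0 : a ≤ Y1.eval a := by
    unfold Y1
    simp only [Polynomial.eval_add, Polynomial.eval_mul, Polynomial.eval_X, Polynomial.eval_one]
    omega
  have h1 : t + extra m n N s ≤ Y1.eval a := by
    unfold Y1 extra
    simp only [Polynomial.eval_add, Polynomial.eval_mul, Polynomial.eval_X, Polynomial.eval_one]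
    gcongr
  have h2 := rad_le (m := m) (N := N) (s := s) (hm.trans h0) (hN.trans h0) (hs.trans h0) h1
  unfold QQ
  simp only [Polynomial.eval_add, Polynomial.eval_mul, Polynomial.eval_X, Polynomial.eval_one,
    Polynomial.eval_ofNat]
  omega

theorem bound2 (m n N s s₀ t : ℕ) :
    4 * rad2 m n N s s₀ (t + (N + 1)) + 1 ≤ QQ.eval (m + n + N + s + s₀ + t) - (m + n) := by
  obtain ⟨a, ha⟩ : ∃ a, a = m + n + N + s + s₀ + t := ⟨_, rfl⟩
  rw [← ha]
  have hm : m ≤ a := by omega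
  have hn : n ≤ a := by omega
  have hN : N ≤ a := by omega
  have hs' : s ≤ a := by omega
  have hs : s + s₀ ≤ a := by omega
  have ht : t ≤ a := by omega
  have h0 : a ≤ Y2.eval a := by
    unfold Y2
    simp only [Polynomial.eval_add, Polynomial.eval_mul, Polynomial.eval_X, Polynomial.eval_one,
      Polynomial.eval_ofNat]
    omega
  have h1 : (t + (N + 1)) + (m + 1) + (n + 1) + (s + 1) + extra2 m n N s +
      extra m n N (s + s₀) ≤ Y2.eval a := by
    unfold Y2 extra extra2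
    simp only [Polynomial.eval_add, Polynomial.eval_mul, Polynomial.eval_X, Polynomial.eval_one,
      Polynomial.eval_ofNat]
    gcongr
  have h2 := rad_le (m := m) (N := N) (s := s + s₀) (hm.trans h0) (hN.trans h0) (hs.trans h0) h1
  unfold QQ
  simp only [Polynomial.eval_add, Polynomial.eval_mul, Polynomial.eval_X, Polynomial.eval_one,
    Polynomial.eval_ofNat]
  have e : rad2 m n N s s₀ (t + (N + 1)) = rad m N (s + s₀) ((t + (N + 1)) + (m + 1) + (n + 1) +
      (s + 1) + extra2 m n N s + extra m n N (s + s₀)) := rfl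
  rw [e]
  omega

/-- Bounded minors are enough. -/
theorem solves_of {α : Alg} {p : Polynomial ℕ} (hp : Works α p) (hm : 1 ≤ m) (hn : 1 ≤ n)
    {R a : ℕ} (hR : 4 * R + 1 ≤ QQ.eval a - (m + n)) {A B : Matrix (Fin m) (Fin n) ℝ}
    (hA : Minors R A) (hB : Reach A B) (b : Fin m → ℝ) : Solves α ((p.comp QQ).eval a) B b := by
  have h1 := hp m n hm hn B b _ (reach_few hR hA hB)
  have e : m + n + (QQ.eval a - (m + n)) = QQ.eval a := by omega
  rw [e] at h1
  rw [Polynomial.eval_comp]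
  exact h1

/-- **One family of matrices.** -/
theorem smoothed {α : Alg} {p : Polynomial ℕ} (hp : Works α p) (m n N s t : ℕ) (hm : 1 ≤ m)
    (hn : 1 ≤ n) (F : Matrix (Fin m) (Fin n) (MvPolynomial (Fin N) ℤ))
    (hF : ∀ i j, Size s (F i j)) (μ : Fin N → Measure ℝ) [∀ l, IsProbabilityMeasure (μ l)]
    (hμ : ∀ l, Spread s (μ l)) :
    Measure.pi μ {x | ∃ (B : Matrix (Fin m) (Fin n) ℝ) (b : Fin m → ℝ), Reach (ev x F) B ∧
      ¬ Solves α ((p.comp QQ).eval (m + n + N + s + t)) B b} ≤ (2 ^ t)⁻¹ := by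
  refine le_trans (measure_mono ?_) (minors_prob s t μ hμ F hF)
  rintro x ⟨B, b, h1, h2⟩ h3
  exact h2 (solves_of hp hm hn (bound1 m n N s t) h3 h1 b)

/-- **All sparse matrices.** -/
theorem uniform {α : Alg} {p : Polynomial ℕ} (hp : Works α p) {Ω : Type} [MeasurableSpace Ω]
    (ℙ : Measure Ω) [IsProbabilityMeasure ℙ] (X : ℕ → Ω → ℝ) (s₀ : ℕ)
    (hX : ∀ l, Measurable (X l)) (hind : ProbabilityTheory.iIndepFun X ℙ)
    (hs : ∀ l, Spread s₀ (ℙ.map (X l))) (t : ℕ) :
    ℙ {ω | ∃ (m n N s : ℕ) (F : Matrix (Fin m) (Fin n) (MvPolynomial (Fin N) ℤ))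
      (B : Matrix (Fin m) (Fin n) ℝ) (b : Fin m → ℝ), 1 ≤ m ∧ 1 ≤ n ∧
      (∀ i j, Sparse s (F i j)) ∧ Reach (ev (fun l : Fin N => X l ω) F) B ∧
      ¬ Solves α ((p.comp QQ).eval (m + n + N + s + s₀ + t)) B b} ≤ (2 ^ t)⁻¹ := by
  obtain ⟨W, hW⟩ : ∃ W : (N : ℕ) → Set (Fin N → ℝ), W = fun N => {x | ∃ (m n s : ℕ)
    (F : Matrix (Fin m) (Fin n) (MvPolynomial (Fin N) ℤ)),
      (∀ i j, Sparse s (F i j)) ∧ ¬ Minors (rad2 m n N s s₀ (t + (N + 1))) (ev x F)} := ⟨_, rfl⟩
  refine le_trans (measure_mono ?_) (geo ℙ (fun N => {ω | (fun l : Fin N => X l ω) ∈ W N}) t ?_)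
  · rintro ω ⟨m, n, N, s, F, B, b, hm, hn, hF, hB, hS⟩
    refine Set.mem_iUnion.2 ⟨N, ?_⟩
    change (fun l : Fin N => X l ω) ∈ W N
    rw [hW]
    exact ⟨m, n, s, F, hF, fun h3 => hS (solves_of hp hm hn (bound2 m n N s s₀ t) h3 hB b)⟩
  · intro N
    have h1 : ProbabilityTheory.iIndepFun (fun l : Fin N => X l) ℙ :=
      hind.precomp Fin.val_injective
    have h2 := (ProbabilityTheory.iIndepFun_iff_map_fun_eq_pi_map
      (fun l : Fin N => (hX l).aemeasurable)).1 h1
    have : ∀ l : Fin N, IsProbabilityMeasure (ℙ.map (X l)) :=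
      fun l => Measure.isProbabilityMeasure_map (hX l).aemeasurable
    have h3 := all_prob s₀ (t + (N + 1)) (fun l : Fin N => ℙ.map (X l)) (fun l => hs l)
    have h4 : Measurable fun ω (l : Fin N) => X l ω := measurable_pi_lambda _ fun l => hX l
    calc ℙ {ω | (fun l : Fin N => X l ω) ∈ W N}
        ≤ (ℙ.map fun ω (l : Fin N) => X l ω) (W N) := Measure.le_map_apply h4.aemeasurable _
      _ ≤ (2 ^ (t + (N + 1)))⁻¹ := by
          rw [h2, hW]
          exact h3

end

end Pool.Agent.R535.SM
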