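import Pool.Agent.R535.SM.Main

set_option autoImplicit false

/-!
# Moments of the running time
-/

namespace Pool.Agent.R535.SM

open MeasureTheory Pool.Agent.H558R2 Pool.Agent.H622R3.SM

theorem tsum_pow (i : ℕ) : ∑' t : ℕ, ((t : ENNReal) ^ i * (2 ^ t)⁻¹) ≠ ⊤ := by
  have h1 : Summable fun t : ℕ => ((t : ℝ) ^ i * (1 / 2 : ℝ) ^ t) :=
    summable_pow_mul_geometric_of_norm_lt_one i (by norm_num)
  have h2 : Summable fun t : ℕ => ((t : NNReal) ^ i * ((2 : NNReal) ^ t)⁻¹) := by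
    rw [← NNReal.summable_coe]
    refine h1.congr fun t => ?_
    push_cast
    rw [one_div, inv_pow]
  have h3 := ENNReal.tsum_coe_ne_top_iff_summable.2 h2
  refine ne_of_eq_of_ne (tsum_congr fun t => ?_) h3
  rw [ENNReal.coe_mul, ENNReal.coe_inv (by positivity)]
  push_cast
  rfl

theorem tsum_poly (W : Polynomial ℕ) :
    ∑' t : ℕ, ((W.eval t : ℕ) : ENNReal) * (2 ^ t)⁻¹ ≠ ⊤ := by
  have h1 : ∀ t : ℕ, ((W.eval t : ℕ) : ENNReal) * (2 ^ t)⁻¹ =
      ∑ i ∈ Finset.range (W.natDegree + 1), (W.coeff i : ENNReal) *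
        ((t : ENNReal) ^ i * (2 ^ t)⁻¹) := by
    intro t
    rw [Polynomial.eval_eq_sum_range]
    push_cast
    rw [Finset.sum_mul]
    exact Finset.sum_congr rfl fun i _ => mul_assoc _ _ _
  simp_rw [h1]
  rw [Summable.tsum_finsetSum (fun i _ => ENNReal.summable)]
  refine (ENNReal.sum_lt_top.2 fun i _ => ?_).ne
  rw [ENNReal.tsum_mul_left]
  exact ENNReal.mul_lt_top (ENNReal.natCast_lt_top _) (tsum_pow i).lt_top

theorem eval_mono (W : Polynomial ℕ) {a b : ℕ} (h : a ≤ b) : W.eval a ≤ W.eval b := by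
  rw [Polynomial.eval_eq_sum_range, Polynomial.eval_eq_sum_range]
  gcongr

/-- From tails to expectations. -/
theorem tail_moment (W : Polynomial ℕ) : ∃ Q : Polynomial ℕ, ∀ {Ω : Type} [MeasurableSpace Ω]
    (μ : Measure Ω) [IsProbabilityMeasure μ] (T : Ω → ENNReal) (bad : ℕ → Set Ω) (a : ℕ),
    (∀ t, μ (bad t) ≤ (2 ^ t)⁻¹) → (∀ t x, x ∉ bad t → T x ≤ (W.eval (a + t) : ℕ)) →
    ∫⁻ x, T x ∂μ ≤ (Q.eval a : ℕ) := by
  obtain ⟨C, hC⟩ := ENNReal.exists_nat_gt (tsum_poly (W.comp (2 * Polynomial.X)))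
  refine ⟨W + 2 * W.comp (2 * Polynomial.X + 2) + (C : Polynomial ℕ), ?_⟩
  intro Ω _ μ _ T bad a hbad hT
  obtain ⟨bt, hbt⟩ : ∃ bt : ℕ → Set Ω, bt = fun t => toMeasurable μ (bad t) := ⟨_, rfl⟩
  have hm : ∀ t, MeasurableSet (bt t) := fun t => by
    rw [hbt]
    exact measurableSet_toMeasurable _ _
  have hμ : ∀ t, μ (bt t) ≤ (2 ^ t)⁻¹ := fun t => by
    rw [hbt]
    change μ (toMeasurable μ (bad t)) ≤ _
    rw [measure_toMeasurable]
    exact hbad t
  have hT' : ∀ t x, x ∉ bt t → T x ≤ (W.eval (a + t) : ℕ) := fun t x hx =>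
    hT t x fun h => hx (by
      rw [hbt]
      exact subset_toMeasurable _ _ h)
  have hnull : μ (⋂ t, bt t) = 0 := by
    have h1 : ∀ t : ℕ, μ (⋂ t, bt t) ≤ 2⁻¹ ^ t := fun t => by
      refine (measure_mono (Set.iInter_subset _ t)).trans ((hμ t).trans (le_of_eq ?_))
      rw [ENNReal.inv_pow]
    have h2 : Filter.Tendsto (fun t : ℕ => (2⁻¹ : ENNReal) ^ t) Filter.atTop (nhds 0) :=
      ENNReal.tendsto_pow_atTop_nhds_zero_of_lt_one (by norm_num)
    exact le_antisymm (ge_of_tendsto' h2 h1) zero_le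
  have hae : ∀ᵐ x ∂μ, T x ≤ (W.eval a : ℕ) +
      ∑' t, (bt t).indicator (fun _ => ((W.eval (a + (t + 1)) : ℕ) : ENNReal)) x := by
    have h1 : ∀ᵐ x ∂μ, x ∉ ⋂ t, bt t := measure_eq_zero_iff_ae_notMem.1 hnull
    filter_upwards [h1] with x hx
    rw [Set.mem_iInter, not_forall] at hx
    classical
    obtain ⟨τ, hτ⟩ : ∃ τ, τ = Nat.find hx := ⟨_, rfl⟩
    have h2 : x ∉ bt τ := by
      rw [hτ]
      exact Nat.find_spec hx
    rcases Nat.eq_zero_or_pos τ with h0 | h0
    · rw [h0] at h2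
      exact (hT' 0 x h2).trans le_self_add
    · obtain ⟨t, ht⟩ : ∃ t, τ = t + 1 := ⟨τ - 1, by omega⟩
      have h3 : x ∈ bt t := by
        by_contra h
        have := Nat.find_min' hx h
        omega
      rw [ht] at h2
      refine (hT' _ x h2).trans (le_trans ?_ le_add_self)
      refine le_trans ?_ (ENNReal.le_tsum t)
      rw [Set.indicator_of_mem h3]
  have hW : ∀ t, W.eval (a + (t + 1)) ≤ (W.comp (2 * Polynomial.X + 2)).eval a +
      (W.comp (2 * Polynomial.X)).eval t := by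
    intro t
    rw [Polynomial.eval_comp, Polynomial.eval_comp]
    simp only [Polynomial.eval_add, Polynomial.eval_mul, Polynomial.eval_X,
      Polynomial.eval_ofNat]
    rcases le_total (a + 1) t with h | h
    · exact (eval_mono W (by omega)).trans (Nat.le_add_left _ _)
    · exact (eval_mono W (by omega)).trans (Nat.le_add_right _ _)
  calc ∫⁻ x, T x ∂μ ≤ ∫⁻ x, ((W.eval a : ℕ) +
      ∑' t, (bt t).indicator (fun _ => ((W.eval (a + (t + 1)) : ℕ) : ENNReal)) x) ∂μ :=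
        lintegral_mono_ae hae
    _ = (W.eval a : ℕ) + ∑' t, ((W.eval (a + (t + 1)) : ℕ) : ENNReal) * μ (bt t) := by
        rw [lintegral_add_left measurable_const, lintegral_const, measure_univ, mul_one,
          lintegral_tsum fun t => (measurable_const.indicator (hm t)).aemeasurable]
        congr 1
        refine tsum_congr fun t => ?_
        rw [lintegral_indicator_const (hm t)]
    _ ≤ (W.eval a : ℕ) + ∑' t : ℕ, ((((W.comp (2 * Polynomial.X + 2)).eval a : ℕ) : ENNReal) *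
        (2 ^ t)⁻¹ + (((W.comp (2 * Polynomial.X)).eval t : ℕ) : ENNReal) * (2 ^ t)⁻¹) := by
        refine add_le_add le_rfl (ENNReal.tsum_le_tsum fun t => ?_)
        rw [← add_mul]
        refine mul_le_mul' ?_ (hμ t)
        exact_mod_cast hW t
    _ = (W.eval a : ℕ) + ((((W.comp (2 * Polynomial.X + 2)).eval a : ℕ) : ENNReal) * 2 +
        ∑' t : ℕ, (((W.comp (2 * Polynomial.X)).eval t : ℕ) : ENNReal) * (2 ^ t)⁻¹) := by
        rw [ENNReal.tsum_add, ENNReal.tsum_mul_left]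
        have h2 : ∑' t : ℕ, ((2 : ENNReal) ^ t)⁻¹ = 2 := by
          have h3 : ∀ t : ℕ, ((2 : ENNReal) ^ t)⁻¹ = 2⁻¹ ^ t := fun t => by
            rw [ENNReal.inv_pow]
          simp_rw [h3]
          exact ENNReal.tsum_geometric_two
        rw [h2]
    _ ≤ (W.eval a : ℕ) + ((((W.comp (2 * Polynomial.X + 2)).eval a : ℕ) : ENNReal) * 2 + C) := by
        gcongr
    _ = (((W + 2 * W.comp (2 * Polynomial.X + 2) + (C : Polynomial ℕ)).eval a : ℕ) :
        ENNReal) := by
        simp only [Polynomial.eval_add, Polynomial.eval_mul, Polynomial.eval_ofNat,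
          Polynomial.eval_natCast]
        push_cast
        ring

section

variable {m n : ℕ}

/-- The least `k` such that the algorithm decides correctly within `k` steps. -/
noncomputable def time (α : Alg) (B : Matrix (Fin m) (Fin n) ℝ) (b : Fin m → ℝ) : ENNReal :=
  ⨅ (k : ℕ) (_ : Solves α k B b), (k : ENNReal)

/-- All moments of the worst time over the right-hand sides. -/
theorem moments {α : Alg} {p : Polynomial ℕ} (hp : Works α p) (c : ℕ) :
    ∃ Q : Polynomial ℕ, ∀ (m n N s : ℕ), 1 ≤ m → 1 ≤ n →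
      ∀ (F : Matrix (Fin m) (Fin n) (MvPolynomial (Fin N) ℤ)), (∀ i j, Size s (F i j)) →
      ∀ (μ : Fin N → Measure ℝ), (∀ l, IsProbabilityMeasure (μ l)) → (∀ l, Spread s (μ l)) →
      ∫⁻ x, ⨆ (B : Matrix (Fin m) (Fin n) ℝ) (b : Fin m → ℝ) (_ : Reach (ev x F) B),
        time α B b ^ c ∂(Measure.pi μ) ≤ (Q.eval (m + n + N + s) : ℕ) := by
  obtain ⟨Q, hQ⟩ := tail_moment ((p.comp QQ) ^ c)
  refine ⟨Q, fun m n N s hm hn F hF μ _ hμ => ?_⟩
  refine hQ (Measure.pi μ) _ (fun t => {x | ∃ (B : Matrix (Fin m) (Fin n) ℝ) (b : Fin m → ℝ),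
    Reach (ev x F) B ∧ ¬ Solves α ((p.comp QQ).eval (m + n + N + s + t)) B b}) _
    (fun t => smoothed hp m n N s t hm hn F hF μ hμ) ?_
  intro t x hx
  refine iSup_le fun B => iSup_le fun b => iSup_le fun hB => ?_
  have h1 : Solves α ((p.comp QQ).eval (m + n + N + s + t)) B b := by
    by_contra h
    exact hx ⟨B, b, hB, h⟩
  rw [Polynomial.eval_pow]
  push_cast
  have h2 : time α B b ≤ ((((p.comp QQ).eval (m + n + N + s + t) : ℕ)) : ENNReal) :=
    iInf₂_le (f := fun (k : ℕ) (_ : Solves α k B b) => (k : ENNReal)) _ h1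
  exact pow_le_pow_left' h2 c

end

end Pool.Agent.R535.SM
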