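import Mathlib

set_option autoImplicit false

/-!
# Small values of integer polynomials at independent random points
-/

namespace Pool.Agent.R535.SM

open MeasureTheory

/-- For every `t`, the law gives probability at most `2 ^ (-t)` to every interval of length
`2 ^ (-s (t + 1))`, and to the complement of the interval of radius `2 ^ (s (t + 1))`. -/
def Spread (s : ℕ) (μ : Measure ℝ) : Prop :=
  ∀ t : ℕ, (∀ u : ℝ, μ (Set.Icc u (u + (2 ^ (s * (t + 1)))⁻¹)) ≤ (2 ^ t)⁻¹) ∧
    μ {x : ℝ | 2 ^ (s * (t + 1)) < |x|} ≤ (2 ^ t)⁻¹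

/-- The set where a real polynomial is small compared to its leading coefficient. -/
theorem small_poly (s t : ℕ) (μ : Measure ℝ) (hμ : Spread s μ) (p : Polynomial ℝ) :
    μ {y : ℝ | |p.eval y| < |p.leadingCoeff| * ((2 ^ (s * (t + 1) + 1))⁻¹) ^ p.natDegree} ≤
      p.natDegree * (2 ^ t)⁻¹ := by
  classical
  obtain ⟨δ, hδ⟩ : ∃ δ : ℝ, δ = (2 ^ (s * (t + 1) + 1))⁻¹ := ⟨_, rfl⟩
  rw [← hδ]
  have hδ0 : 0 ≤ δ := by rw [hδ]; positivity
  obtain ⟨q, hq⟩ : ∃ q : Polynomial ℂ, q = p.map (algebraMap ℝ ℂ) := ⟨_, rfl⟩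
  have hsplit : q.Splits := IsAlgClosed.splits q
  have hcard : Multiset.card q.roots = p.natDegree := by
    have h1 : Multiset.card q.roots = q.natDegree := by
      rw [hsplit.natDegree_eq_card_roots]
    rw [h1, hq, Polynomial.natDegree_map]
  have hsub : {y : ℝ | |p.eval y| < |p.leadingCoeff| * δ ^ p.natDegree} ⊆
      ⋃ z ∈ q.roots.toFinset, Set.Icc (z.re - δ) (z.re - δ + (2 ^ (s * (t + 1)))⁻¹) := by
    intro y hy
    by_contra hne
    have hfar : ∀ z ∈ q.roots, δ ≤ ‖(y : ℂ) - z‖ := by
      intro z hz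
      by_contra hlt
      push Not at hlt
      apply hne
      simp only [Set.mem_iUnion]
      refine ⟨z, Multiset.mem_toFinset.2 hz, ?_⟩
      have h1 : |((y : ℂ) - z).re| ≤ ‖(y : ℂ) - z‖ := Complex.abs_re_le_norm _
      have h2 : ((y : ℂ) - z).re = y - z.re := by simp
      rw [h2] at h1
      have h3 : |y - z.re| < δ := lt_of_le_of_lt h1 hlt
      have h4 := abs_lt.1 h3
      have h5 : (2 ^ (s * (t + 1)) : ℝ)⁻¹ = 2 * δ := by
        rw [hδ, pow_succ, mul_inv]
        ring
      rw [h5]
      constructor <;> linarith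
    have h1 : ‖q.eval (y : ℂ)‖ = |p.eval y| := by
      have h2 : q.eval (y : ℂ) = ((p.eval y : ℝ) : ℂ) := by
        rw [hq, Polynomial.eval_map]
        exact Polynomial.eval₂_at_apply (algebraMap ℝ ℂ) y
      rw [h2, Complex.norm_real, Real.norm_eq_abs]
    have h2 : q.eval (y : ℂ) = q.leadingCoeff * (q.roots.map fun a => (y : ℂ) - a).prod :=
      Polynomial.Splits.eval_eq_prod_roots hsplit _
    have h3 : ‖q.leadingCoeff‖ = |p.leadingCoeff| := by
      rw [hq, Polynomial.leadingCoeff_map]
      simp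
    have h4 : δ ^ p.natDegree ≤ ‖(q.roots.map fun a => (y : ℂ) - a).prod‖ := by
      have h5 : ‖(q.roots.map fun a => (y : ℂ) - a).prod‖ =
          (q.roots.map fun a => ‖(y : ℂ) - a‖).prod := by
        have := map_multiset_prod (normHom : ℂ →*₀ ℝ) (q.roots.map fun a => (y : ℂ) - a)
        simpa [Multiset.map_map] using this
      rw [h5, ← hcard]
      clear h5
      have key : ∀ S : Multiset ℂ, (∀ z ∈ S, δ ≤ ‖(y : ℂ) - z‖) →
          δ ^ Multiset.card S ≤ (S.map fun a => ‖(y : ℂ) - a‖).prod := by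
        intro S
        induction S using Multiset.induction_on with
        | empty => simp
        | cons a S ih =>
          intro hS
          rw [Multiset.card_cons, Multiset.map_cons, Multiset.prod_cons, pow_succ']
          exact mul_le_mul (hS a (Multiset.mem_cons_self a S))
            (ih fun z hz => hS z (Multiset.mem_cons_of_mem hz)) (by positivity) (norm_nonneg _)
      exact key _ hfar
    have h6 : |p.eval y| < |p.leadingCoeff| * δ ^ p.natDegree := hy
    rw [← h1, h2, norm_mul, h3] at h6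
    exact absurd h6 (not_lt.2 (mul_le_mul_of_nonneg_left h4 (abs_nonneg _)))
  calc μ {y : ℝ | |p.eval y| < |p.leadingCoeff| * δ ^ p.natDegree}
      ≤ μ (⋃ z ∈ q.roots.toFinset, Set.Icc (z.re - δ) (z.re - δ + (2 ^ (s * (t + 1)))⁻¹)) :=
        measure_mono hsub
    _ ≤ ∑ z ∈ q.roots.toFinset, μ (Set.Icc (z.re - δ) (z.re - δ + (2 ^ (s * (t + 1)))⁻¹)) :=
        measure_biUnion_finset_le _ _
    _ ≤ ∑ _z ∈ q.roots.toFinset, (2 ^ t)⁻¹ := Finset.sum_le_sum fun z _ => (hμ t).1 _
    _ = q.roots.toFinset.card * (2 ^ t)⁻¹ := by rw [Finset.sum_const, nsmul_eq_mul]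
    _ ≤ p.natDegree * (2 ^ t)⁻¹ := by
        gcongr
        rw [← hcard]
        exact q.roots.toFinset_card_le

/-- The value of an integer polynomial at a real point. -/
noncomputable def val {N : ℕ} (x : Fin N → ℝ) (q : MvPolynomial (Fin N) ℤ) : ℝ :=
  MvPolynomial.aeval x q

theorem val_continuous {N : ℕ} (q : MvPolynomial (Fin N) ℤ) :
    Continuous fun x : Fin N → ℝ => val x q := by
  have h : (fun x : Fin N → ℝ => val x q) =
      fun x => MvPolynomial.eval x (MvPolynomial.map (Int.castRingHom ℝ) q) := by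
    funext x
    rw [MvPolynomial.eval_map]
    rfl
  rw [h]
  exact MvPolynomial.continuous_eval _

/-- A nonzero integer polynomial is rarely small at a random point. -/
theorem small_val (s t : ℕ) : ∀ (N : ℕ) (μ : Fin N → Measure ℝ)
    [∀ l, IsProbabilityMeasure (μ l)], (∀ l, Spread s (μ l)) →
    ∀ (q : MvPolynomial (Fin N) ℤ) (D : ℕ), q ≠ 0 → q.totalDegree ≤ D →
    Measure.pi μ {x | |val x q| < ((2 ^ (s * (t + 1) + 1))⁻¹) ^ D} ≤ D * (2 ^ t)⁻¹ := by
  intro N
  obtain ⟨δ, hδ⟩ : ∃ δ : ℝ, δ = (2 ^ (s * (t + 1) + 1))⁻¹ := ⟨_, rfl⟩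
  have hδ0 : 0 < δ := by rw [hδ]; positivity
  have hδ1 : δ ≤ 1 := by
    rw [hδ]
    exact inv_le_one_of_one_le₀ (one_le_pow₀ (by norm_num))
  rw [← hδ]
  induction N with
  | zero =>
    intro μ _ _ q D hq _
    have h0 : {x : Fin 0 → ℝ | |val x q| < δ ^ D} = ∅ := by
      rw [Set.eq_empty_iff_forall_notMem]
      intro x hx
      have h1 : |val x q| < δ ^ D := hx
      obtain ⟨a, ha⟩ := MvPolynomial.C_surjective (Fin 0) q
      rw [← ha] at h1 hq
      have ha0 : a ≠ 0 := fun h => hq (by rw [h, map_zero])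
      have h2 : val x (MvPolynomial.C a) = (a : ℝ) := by
        unfold val
        rw [MvPolynomial.aeval_C]
        simp
      rw [h2] at h1
      have h3 : (1 : ℝ) ≤ |(a : ℝ)| := by
        have := Int.one_le_abs ha0
        exact_mod_cast this
      have h4 : δ ^ D ≤ 1 := pow_le_one₀ hδ0.le hδ1
      linarith
    rw [h0, measure_empty]
    exact zero_le
  | succ N ih =>
    intro μ _ hμ q D hq hD
    obtain ⟨q', hq'⟩ : ∃ q' : Polynomial (MvPolynomial (Fin N) ℤ),
        q' = MvPolynomial.finSuccEquiv ℤ N q := ⟨_, rfl⟩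
    have hq'0 : q' ≠ 0 := by
      rw [hq']
      intro h
      exact hq ((MvPolynomial.finSuccEquiv ℤ N).injective (by rw [h, map_zero]))
    obtain ⟨e, he⟩ : ∃ e, e = q'.natDegree := ⟨_, rfl⟩
    obtain ⟨c, hc⟩ : ∃ c, c = q'.leadingCoeff := ⟨_, rfl⟩
    have hc0 : c ≠ 0 := by
      rw [hc]
      exact Polynomial.leadingCoeff_ne_zero.2 hq'0
    have hdeg : c.totalDegree + e ≤ D := by
      have h1 := MvPolynomial.totalDegree_coeff_finSuccEquiv_add_le q e (by
        rw [← hq', he]
        exact Polynomial.leadingCoeff_ne_zero.2 hq'0)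
      rw [← hq'] at h1
      have h2 : q'.coeff e = c := by rw [he, hc]; rfl
      rw [h2] at h1
      omega
    obtain ⟨φ, hφ⟩ : ∃ φ : (Fin N → ℝ) → MvPolynomial (Fin N) ℤ →+* ℝ,
        φ = fun x => (MvPolynomial.aeval x : MvPolynomial (Fin N) ℤ →ₐ[ℤ] ℝ).toRingHom := ⟨_, rfl⟩
    have hφv : ∀ x r, φ x r = val x r := fun x r => by rw [hφ]; rfl
    have hval : ∀ (y : ℝ) (x : Fin N → ℝ), val (Fin.cons y x : Fin (N + 1) → ℝ) q =
        (q'.map (φ x)).eval y := by
      intro y x
      rw [Polynomial.eval_map, hq']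
      have h : (MvPolynomial.aeval (Fin.cons y x : Fin (N + 1) → ℝ) :
          MvPolynomial (Fin (N + 1)) ℤ →ₐ[ℤ] ℝ).toRingHom =
          (Polynomial.eval₂RingHom (φ x) y).comp
          (MvPolynomial.finSuccEquiv ℤ N).toRingEquiv.toRingHom := by
        apply MvPolynomial.ringHom_ext
        · intro r
          simp
        · intro i
          refine Fin.cases ?_ (fun j => ?_) i
          · simp [MvPolynomial.finSuccEquiv_X_zero]
          · simp [MvPolynomial.finSuccEquiv_X_succ, hφ]
      exact DFunLike.congr_fun h q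
    -- the section bound
    have hsec : ∀ x : Fin N → ℝ,
        μ 0 {y : ℝ | |val (Fin.cons y x : Fin (N + 1) → ℝ) q| < δ ^ D} ≤
          {x : Fin N → ℝ | |val x c| < δ ^ (D - e)}.indicator 1 x + e * (2 ^ t)⁻¹ := by
      intro x
      by_cases hx : |val x c| < δ ^ (D - e)
      · rw [Set.indicator_of_mem (by exact hx)]
        exact prob_le_one.trans le_self_add
      · rw [Set.indicator_of_notMem (by exact hx), zero_add]
        rw [not_lt] at hx
        have hc1 : φ x c ≠ 0 := by
          rw [hφv]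
          intro h0
          rw [h0, abs_zero] at hx
          exact absurd hx (not_le.2 (by positivity))
        have hlead : (q'.map (φ x)).leadingCoeff = φ x c := by
          rw [hc] at hc1 ⊢
          exact Polynomial.leadingCoeff_map_of_leadingCoeff_ne_zero _ hc1
        have hnd : (q'.map (φ x)).natDegree = e := by
          rw [he]
          rw [hc] at hc1
          exact Polynomial.natDegree_map_of_leadingCoeff_ne_zero _ hc1
        have h1 := small_poly s t (μ 0) (hμ 0) (q'.map (φ x))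
        rw [← hδ, hlead, hnd, hφv] at h1
        refine le_trans (measure_mono ?_) h1
        intro y hy
        have hy' : |val (Fin.cons y x : Fin (N + 1) → ℝ) q| < δ ^ D := hy
        rw [hval] at hy'
        refine lt_of_lt_of_le hy' ?_
        calc δ ^ D = δ ^ (D - e) * δ ^ e := by rw [← pow_add]; congr 1; omega
          _ ≤ |val x c| * δ ^ e := mul_le_mul_of_nonneg_right hx (by positivity)
    have hmeas : MeasurableSet {x : Fin (N + 1) → ℝ | |val x q| < δ ^ D} :=
      (isOpen_lt (val_continuous q).abs continuous_const).measurableSet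
    have hmeas' : MeasurableSet {x : Fin N → ℝ | |val x c| < δ ^ (D - e)} :=
      (isOpen_lt (val_continuous c).abs continuous_const).measurableSet
    have hmp := MeasureTheory.measurePreserving_piFinSuccAbove μ 0
    have hmp' := hmp.symm
    have h1 : Measure.pi μ {x | |val x q| < δ ^ D} =
        ((μ 0).prod (Measure.pi fun j => μ ((0 : Fin (N + 1)).succAbove j)))
          ((MeasurableEquiv.piFinSuccAbove (fun _ => ℝ) 0).symm ⁻¹' {x | |val x q| < δ ^ D}) :=
      (hmp'.measure_preimage hmeas.nullMeasurableSet).symm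
    rw [h1, Measure.prod_apply_symm
      ((MeasurableEquiv.piFinSuccAbove (fun _ => ℝ) 0).symm.measurable hmeas)]
    have h2 : ∀ x : Fin N → ℝ, (fun y : ℝ => (y, x)) ⁻¹'
        ((MeasurableEquiv.piFinSuccAbove (fun _ => ℝ) 0).symm ⁻¹' {x | |val x q| < δ ^ D}) =
        {y : ℝ | |val (Fin.cons y x : Fin (N + 1) → ℝ) q| < δ ^ D} := by
      intro x
      ext y
      simp only [Set.mem_preimage, Set.mem_ofPred_eq]
      have : (MeasurableEquiv.piFinSuccAbove (fun _ => ℝ) 0).symm (y, x) =
          (Fin.cons y x : Fin (N + 1) → ℝ) := by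
        funext i
        refine Fin.cases ?_ (fun j => ?_) i
        · simp [MeasurableEquiv.piFinSuccAbove]
        · simp [MeasurableEquiv.piFinSuccAbove]
      rw [this]
    have ih' := ih (fun j => μ ((0 : Fin (N + 1)).succAbove j)) (fun j => hμ _) c (D - e) hc0
      (by omega)
    calc ∫⁻ x, μ 0 ((fun y : ℝ => (y, x)) ⁻¹'
          ((MeasurableEquiv.piFinSuccAbove (fun _ => ℝ) 0).symm ⁻¹' {x | |val x q| < δ ^ D}))
          ∂(Measure.pi fun j => μ ((0 : Fin (N + 1)).succAbove j))
        ≤ ∫⁻ x, ({x : Fin N → ℝ | |val x c| < δ ^ (D - e)}.indicator 1 x + e * (2 ^ t)⁻¹)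
          ∂(Measure.pi fun j => μ ((0 : Fin (N + 1)).succAbove j)) := by
          refine lintegral_mono fun x => ?_
          rw [h2]
          exact hsec x
      _ = (Measure.pi fun j => μ ((0 : Fin (N + 1)).succAbove j))
            {x : Fin N → ℝ | |val x c| < δ ^ (D - e)} + e * (2 ^ t)⁻¹ := by
          rw [lintegral_add_right _ measurable_const, lintegral_indicator_one hmeas',
            lintegral_const, measure_univ, mul_one]
      _ ≤ (D - e : ℕ) * (2 ^ t)⁻¹ + e * (2 ^ t)⁻¹ := by gcongr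
      _ = D * (2 ^ t)⁻¹ := by
          rw [← add_mul, ← Nat.cast_add]
          congr 3
          omega

end Pool.Agent.R535.SM
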