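import Pool.Agent.R535.SM.Union

set_option autoImplicit false

/-!
# All sparse matrices of polynomials at once
-/

namespace Pool.Agent.R535.SM

open MeasureTheory

section

variable {m n N : ℕ}

theorem Size.mono {s s' : ℕ} (h : s ≤ s') {q : MvPolynomial (Fin N) ℤ} (hq : Size s q) :
    Size s' q :=
  ⟨hq.1.trans h, fun a => (hq.2 a).trans (pow_le_pow_right₀ (by norm_num) h)⟩

theorem Spread.mono {s s' : ℕ} (h : s ≤ s') {μ : Measure ℝ} (hμ : Spread s μ) : Spread s' μ := by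
  intro t
  have h1 : s * (t + 1) ≤ s' * (t + 1) := Nat.mul_le_mul h le_rfl
  have h2 : (2 : ℝ) ^ (s * (t + 1)) ≤ 2 ^ (s' * (t + 1)) := pow_le_pow_right₀ (by norm_num) h1
  refine ⟨fun u => (measure_mono ?_).trans ((hμ t).1 u), (measure_mono ?_).trans (hμ t).2⟩
  · apply Set.Icc_subset_Icc_right
    have h3 : (2 ^ (s' * (t + 1)) : ℝ)⁻¹ ≤ (2 ^ (s * (t + 1)))⁻¹ := inv_anti₀ (by positivity) h2
    linarith
  · intro x hx
    exact lt_of_le_of_lt h2 hx

/-- A union of sets of small probability. -/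
theorem geo {α : Type*} [MeasurableSpace α] (μ : Measure α) (A : ℕ → Set α) (t : ℕ)
    (h : ∀ k, μ (A k) ≤ (2 ^ (t + (k + 1)))⁻¹) : μ (⋃ k, A k) ≤ (2 ^ t)⁻¹ := by
  refine (measure_iUnion_le A).trans ((ENNReal.tsum_le_tsum h).trans (le_of_eq ?_))
  have h1 : ∀ k : ℕ, (2 ^ (t + (k + 1)) : ENNReal)⁻¹ = (2 ^ t)⁻¹ * 2⁻¹ ^ (k + 1) := by
    intro k
    rw [pow_add, ENNReal.mul_inv (Or.inr (by finiteness)) (Or.inr (by positivity)),
      ENNReal.inv_pow (n := k + 1)]
  simp_rw [h1]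
  rw [ENNReal.tsum_mul_left, ENNReal.tsum_geometric_add_one, ENNReal.one_sub_inv_two, inv_inv,
    ENNReal.inv_mul_cancel (by norm_num) (by finiteness), mul_one]

/-- Degree at most `s`, coefficients at most `2 ^ s`, at most `s` terms. -/
def Sparse (s : ℕ) (q : MvPolynomial (Fin N) ℤ) : Prop :=
  q.totalDegree ≤ s ∧ (∀ a, |q.coeff a| ≤ 2 ^ s) ∧ q.support.card ≤ s

/-- Codes of sparse polynomials. -/
abbrev Code (N s : ℕ) : Type := Fin s → (Fin N → Fin (s + 1)) × Fin (2 * 2 ^ s + 1)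

/-- The polynomial of a code. -/
noncomputable def Code.poly {N s : ℕ} (d : Code N s) : MvPolynomial (Fin N) ℤ :=
  ∑ k, MvPolynomial.monomial (Finsupp.equivFunOnFinite.symm fun l => ((d k).1 l : ℕ))
    (((d k).2 : ℕ) - 2 ^ s : ℤ)

theorem exists_code {s : ℕ} {q : MvPolynomial (Fin N) ℤ} (hq : Sparse s q) :
    ∃ d : Code N s, d.poly = q := by
  classical
  obtain ⟨g⟩ : Nonempty (q.support ↪ Fin s) := by
    apply Function.Embedding.nonempty_of_card_le
    rw [Fintype.card_coe, Fintype.card_fin]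
    exact hq.2.2
  have hle : ∀ a : q.support, ∀ l, (a : Fin N →₀ ℕ) l < s + 1 := by
    intro a l
    have h2 := (MvPolynomial.le_totalDegree a.2).trans hq.1
    rw [Finsupp.sum_fintype _ _ (fun _ => rfl)] at h2
    exact Nat.lt_succ_of_le ((Finset.single_le_sum (f := fun i => (a : Fin N →₀ ℕ) i)
      (fun _ _ => Nat.zero_le _) (Finset.mem_univ l)).trans h2)
  have hco : ∀ a, (q.coeff a + 2 ^ s).toNat < 2 * 2 ^ s + 1 := by
    intro a
    have h1 := abs_le.1 (hq.2.1 a)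
    have h2 : q.coeff a + 2 ^ s ≤ ((2 * 2 ^ s : ℕ) : ℤ) := by
      push_cast
      linarith [h1.2]
    have := Int.toNat_le.2 h2
    omega
  have hco' : ∀ a, (((q.coeff a + 2 ^ s).toNat : ℕ) : ℤ) - 2 ^ s = q.coeff a := by
    intro a
    have h1 := abs_le.1 (hq.2.1 a)
    rw [Int.toNat_of_nonneg (by linarith [h1.1])]
    ring
  obtain ⟨D, hD⟩ : ∃ D : Code N s, D = fun k => if h : ∃ a, g a = k then
    (fun l => ⟨(h.choose : Fin N →₀ ℕ) l, hle _ l⟩, ⟨_, hco (h.choose : Fin N →₀ ℕ)⟩)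
    else (fun _ => 0, ⟨2 ^ s, by omega⟩) := ⟨_, rfl⟩
  have h1 : ∀ k, k ∉ Set.range g → D k = (fun _ => 0, ⟨2 ^ s, by omega⟩) := by
    intro k hk
    have hk' : ¬ ∃ a, g a = k := hk
    rw [hD]
    exact dif_neg hk'
  have h2 : ∀ a, D (g a) = (fun l => ⟨(a : Fin N →₀ ℕ) l, hle _ l⟩,
      ⟨_, hco (a : Fin N →₀ ℕ)⟩) := by
    intro a
    have hex : ∃ b, g b = g a := ⟨a, rfl⟩
    have hb : hex.choose = a := g.injective hex.choose_spec
    rw [hD]
    refine (dif_pos hex).trans ?_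
    rw [hb]
  refine ⟨D, ?_⟩
  unfold Code.poly
  refine Eq.trans ?_ (MvPolynomial.support_sum_monomial_coeff q)
  rw [← Finset.sum_coe_sort q.support]
  refine (Fintype.sum_of_injective g g.injective _ _ ?_ ?_).symm
  · intro k hk
    rw [h1 k hk]
    simp
  · intro a
    rw [h2 a]
    dsimp only
    rw [hco']
    congr 1
    ext l
    simp

/-- The number of extra bits for all sparse matrices. -/
def extra2 (m n N s : ℕ) : ℕ := (s * (s * N + s + 2)) * n * m

theorem card_code (m n N s : ℕ) :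
    Fintype.card (Fin m → Fin n → Code N s) ≤ 2 ^ extra2 m n N s := by
  have h1 : Fintype.card (Fin m → Fin n → Code N s) =
      ((((s + 1) ^ N * (2 * 2 ^ s + 1)) ^ s) ^ n) ^ m := by
    simp [Code]
  rw [h1]
  have h2 : (s + 1) ^ N * (2 * 2 ^ s + 1) ≤ 2 ^ (s * N + s + 2) := by
    have h3 : (s + 1) ^ N ≤ 2 ^ (s * N) := by
      rw [pow_mul]
      exact Nat.pow_le_pow_left Nat.lt_two_pow_self N
    have h4 : 2 * 2 ^ s + 1 ≤ 2 ^ (s + 2) := by
      have : 1 ≤ 2 ^ s := Nat.one_le_two_pow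
      rw [pow_add]
      omega
    calc (s + 1) ^ N * (2 * 2 ^ s + 1) ≤ 2 ^ (s * N) * 2 ^ (s + 2) := Nat.mul_le_mul h3 h4
      _ = 2 ^ (s * N + s + 2) := by rw [← pow_add]; congr 1
  calc ((((s + 1) ^ N * (2 * 2 ^ s + 1)) ^ s) ^ n) ^ m
      ≤ (((2 ^ (s * N + s + 2)) ^ s) ^ n) ^ m :=
        Nat.pow_le_pow_left (Nat.pow_le_pow_left (Nat.pow_le_pow_left h2 _) _) _
    _ = 2 ^ extra2 m n N s := by
        rw [← pow_mul, ← pow_mul, ← pow_mul]
        congr 1
        unfold extra2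
        ring

/-- The bound on the minors for all sparse matrices. -/
def rad2 (m n N s s₀ t : ℕ) : ℕ :=
  rad m N (s + s₀) (t + (m + 1) + (n + 1) + (s + 1) + extra2 m n N s + extra m n N (s + s₀))

/-- **All sparse matrices at once.** -/
theorem all_prob (s₀ t : ℕ) (μ : Fin N → Measure ℝ) [∀ l, IsProbabilityMeasure (μ l)]
    (hμ : ∀ l, Spread s₀ (μ l)) :
    Measure.pi μ {x | ∃ (m n s : ℕ) (F : Matrix (Fin m) (Fin n) (MvPolynomial (Fin N) ℤ)),
      (∀ i j, Sparse s (F i j)) ∧ ¬ Minors (rad2 m n N s s₀ t) (ev x F)} ≤ (2 ^ t)⁻¹ := by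
  classical
  have hfix : ∀ (m n s : ℕ), Measure.pi μ {x | ∃ F : Matrix (Fin m) (Fin n)
      (MvPolynomial (Fin N) ℤ), (∀ i j, Sparse s (F i j)) ∧
      ¬ Minors (rad2 m n N s s₀ t) (ev x F)} ≤ (2 ^ (t + (m + 1) + (n + 1) + (s + 1)))⁻¹ := by
    intro m n s
    obtain ⟨T, hT⟩ : ∃ T, T = t + (m + 1) + (n + 1) + (s + 1) := ⟨_, rfl⟩
    have hsub : {x | ∃ F : Matrix (Fin m) (Fin n) (MvPolynomial (Fin N) ℤ),
        (∀ i j, Sparse s (F i j)) ∧ ¬ Minors (rad2 m n N s s₀ t) (ev x F)} ⊆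
        ⋃ D : Fin m → Fin n → Code N s, {x | (∀ i j, Sparse s (D i j).poly) ∧
          ¬ Minors (rad2 m n N s s₀ t) (ev x (fun i j => (D i j).poly))} := by
      rintro x ⟨F, hF, hM⟩
      choose D hD using fun i j => exists_code (hF i j)
      refine Set.mem_iUnion.2 ⟨D, ?_⟩
      have : (fun i j => (D i j).poly) = F := by
        funext i j
        exact hD i j
      refine ⟨fun i j => ?_, ?_⟩
      · rw [hD]
        exact hF i j
      · rw [this]
        exact hM
    have hone : ∀ D : Fin m → Fin n → Code N s, Measure.pi μ {x |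
        (∀ i j, Sparse s (D i j).poly) ∧
        ¬ Minors (rad2 m n N s s₀ t) (ev x (fun i j => (D i j).poly))} ≤
        (2 ^ (T + extra2 m n N s))⁻¹ := by
      intro D
      by_cases hS : ∀ i j, Sparse s (D i j).poly
      · have h1 := minors_prob (m := m) (n := n) (s + s₀) (T + extra2 m n N s) μ
          (fun l => (hμ l).mono (Nat.le_add_left _ _)) (fun i j => (D i j).poly)
          (fun i j => Size.mono (Nat.le_add_right _ _) ⟨(hS i j).1, (hS i j).2.1⟩)
        refine (measure_mono ?_).trans h1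
        rintro x ⟨-, hx⟩
        have e : rad2 m n N s s₀ t =
            rad m N (s + s₀) (T + extra2 m n N s + extra m n N (s + s₀)) := by
          rw [hT]
          rfl
        rw [e] at hx
        exact hx
      · have : {x : Fin N → ℝ | (∀ i j, Sparse s (D i j).poly) ∧
            ¬ Minors (rad2 m n N s s₀ t) (ev x (fun i j => (D i j).poly))} = ∅ := by
          rw [Set.eq_empty_iff_forall_notMem]
          rintro x ⟨h, -⟩
          exact hS h
        rw [this, measure_empty]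
        exact zero_le
    rw [← hT]
    calc Measure.pi μ {x | ∃ F : Matrix (Fin m) (Fin n) (MvPolynomial (Fin N) ℤ),
          (∀ i j, Sparse s (F i j)) ∧ ¬ Minors (rad2 m n N s s₀ t) (ev x F)}
        ≤ Measure.pi μ (⋃ D : Fin m → Fin n → Code N s, {x | (∀ i j, Sparse s (D i j).poly) ∧
          ¬ Minors (rad2 m n N s s₀ t) (ev x (fun i j => (D i j).poly))}) := measure_mono hsub
      _ ≤ ∑ D : Fin m → Fin n → Code N s, Measure.pi μ {x | (∀ i j, Sparse s (D i j).poly) ∧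
          ¬ Minors (rad2 m n N s s₀ t) (ev x (fun i j => (D i j).poly))} :=
          measure_iUnion_fintype_le _ _
      _ ≤ ∑ _D : Fin m → Fin n → Code N s, ((2 : ENNReal) ^ (T + extra2 m n N s))⁻¹ :=
          Finset.sum_le_sum fun D _ => hone D
      _ = (Fintype.card (Fin m → Fin n → Code N s) : ENNReal) *
          (2 ^ (T + extra2 m n N s))⁻¹ := by
          rw [Finset.sum_const, Finset.card_univ, nsmul_eq_mul]
      _ ≤ ((2 ^ extra2 m n N s : ℕ) : ENNReal) * (2 ^ (T + extra2 m n N s))⁻¹ := by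
          gcongr
          exact card_code m n N s
      _ = (2 ^ T)⁻¹ := by
          push_cast
          exact two_pow_inv _ _
  refine le_trans (measure_mono ?_) (geo (Measure.pi μ) (fun m => ⋃ n, ⋃ s, {x | ∃ F :
    Matrix (Fin m) (Fin n) (MvPolynomial (Fin N) ℤ), (∀ i j, Sparse s (F i j)) ∧
      ¬ Minors (rad2 m n N s s₀ t) (ev x F)}) t ?_)
  · rintro x ⟨m, n, s, F, hF⟩
    exact Set.mem_iUnion.2 ⟨m, Set.mem_iUnion.2 ⟨n, Set.mem_iUnion.2 ⟨s, F, hF⟩⟩⟩
  · intro m
    refine geo _ _ _ fun n => geo _ _ _ fun s => ?_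
    exact hfix m n s

end

end Pool.Agent.R535.SM
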