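import Pool.Agent.R535.SM.Prob
import Pool.Agent.R535.SM.Det

set_option autoImplicit false

/-!
# All minors at once
-/

namespace Pool.Agent.R535.SM

open MeasureTheory

section

variable {m n N : ℕ}

/-- The matrix of the values. -/
noncomputable def ev (x : Fin N → ℝ) (F : Matrix (Fin m) (Fin n) (MvPolynomial (Fin N) ℤ)) :
    Matrix (Fin m) (Fin n) ℝ := fun i j => val x (F i j)

/-- Degree at most `s`, coefficients at most `2 ^ s`. -/
def Size (s : ℕ) (q : MvPolynomial (Fin N) ℤ) : Prop :=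
  q.totalDegree ≤ s ∧ ∀ a, |q.coeff a| ≤ 2 ^ s

theorem support_card {s : ℕ} {q : MvPolynomial (Fin N) ℤ} (hq : q.totalDegree ≤ s) :
    q.support.card ≤ 2 ^ (s * N) := by
  classical
  have h1 : q.support.card ≤ (Fintype.piFinset fun _ : Fin N => Finset.range (s + 1)).card := by
    refine Finset.card_le_card_of_injOn (fun a => (a : Fin N → ℕ)) ?_ ?_
    · intro a ha
      have h2 := MvPolynomial.le_totalDegree ha
      have h2' := h2.trans hq
      rw [Finsupp.sum_fintype _ _ (fun _ => rfl)] at h2'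
      have : ∀ i, a i ≤ s := fun i =>
        (Finset.single_le_sum (f := fun i => a i) (fun _ _ => Nat.zero_le _)
          (Finset.mem_univ i)).trans h2'
      exact Finset.mem_coe.2 (Fintype.mem_piFinset.2 fun i => Finset.mem_range.2
        (Nat.lt_succ_of_le (this i)))
    · intro a _ b _ h
      exact DFunLike.coe_injective h
  refine h1.trans ?_
  rw [Fintype.card_piFinset_const, Finset.card_range, pow_mul]
  exact Nat.pow_le_pow_left Nat.lt_two_pow_self N

/-- Upper bound for a value. -/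
theorem val_le {s : ℕ} {q : MvPolynomial (Fin N) ℤ} (hq : Size s q) {M : ℝ} (hM : 1 ≤ M)
    {x : Fin N → ℝ} (hx : ∀ l, |x l| ≤ M) : |val x q| ≤ 2 ^ (s * N + s) * M ^ s := by
  classical
  have h0 : val x q = ∑ d ∈ q.support, ((q.coeff d : ℤ) : ℝ) * ∏ i, x i ^ d i := by
    unfold val
    rw [MvPolynomial.aeval_def, MvPolynomial.eval₂_eq']
    rfl
  rw [h0]
  calc |∑ d ∈ q.support, ((q.coeff d : ℤ) : ℝ) * ∏ i, x i ^ d i|
      ≤ ∑ d ∈ q.support, |((q.coeff d : ℤ) : ℝ) * ∏ i, x i ^ d i| := Finset.abs_sum_le_sum_abs _ _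
    _ ≤ ∑ _d ∈ q.support, 2 ^ s * M ^ s := by
        refine Finset.sum_le_sum fun d hd => ?_
        rw [abs_mul]
        have h1 : |((q.coeff d : ℤ) : ℝ)| ≤ 2 ^ s := by exact_mod_cast hq.2 d
        have h2 : |∏ i, x i ^ d i| ≤ M ^ s := by
          rw [Finset.abs_prod]
          calc ∏ i, |x i ^ d i| ≤ ∏ i, M ^ d i := by
                refine Finset.prod_le_prod (fun _ _ => abs_nonneg _) fun i _ => ?_
                rw [abs_pow]
                exact pow_le_pow_left₀ (abs_nonneg _) (hx i) _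
            _ = M ^ ∑ i, d i := by rw [Finset.prod_pow_eq_pow_sum]
            _ ≤ M ^ s := by
                refine pow_le_pow_right₀ hM ?_
                have h2 := (MvPolynomial.le_totalDegree hd).trans hq.1
                rwa [Finsupp.sum_fintype _ _ (fun _ => rfl)] at h2
        exact mul_le_mul h1 h2 (abs_nonneg _) (by positivity)
    _ = q.support.card * (2 ^ s * M ^ s) := by rw [Finset.sum_const, nsmul_eq_mul]
    _ ≤ 2 ^ (s * N) * (2 ^ s * M ^ s) := by
        have h3 : (q.support.card : ℝ) ≤ 2 ^ (s * N) := by exact_mod_cast support_card hq.1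
        have : 0 ≤ M := by linarith
        gcongr
    _ = 2 ^ (s * N + s) * M ^ s := by ring

/-- Upper bound for a minor. -/
theorem minor_le {A : Matrix (Fin m) (Fin n) ℝ} {E : ℕ} (h : ∀ i j, |A i j| ≤ 2 ^ E) {k : ℕ}
    (hk : k ≤ m) (f : Fin k → Fin m) (g : Fin k → Fin n) :
    |(A.submatrix f g).det| ≤ 2 ^ (m * m + E * m) := by
  have h1 := Matrix.det_le (A := A.submatrix f g) (abv := AbsoluteValue.abs) (x := 2 ^ E)
    (fun i j => h _ _)
  rw [Fintype.card_fin] at h1
  have h2 : |(A.submatrix f g).det| ≤ k.factorial • (2 ^ E) ^ k := h1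
  refine h2.trans ?_
  rw [nsmul_eq_mul, pow_add]
  have h3 : (k.factorial : ℝ) ≤ 2 ^ (m * m) := by
    have h4 : k.factorial ≤ 2 ^ (m * m) := by
      calc k.factorial ≤ k ^ k := Nat.factorial_le_pow k
        _ ≤ (2 ^ k) ^ k := Nat.pow_le_pow_left Nat.lt_two_pow_self.le k
        _ = 2 ^ (k * k) := by rw [pow_mul]
        _ ≤ 2 ^ (m * m) := Nat.pow_le_pow_right (by omega) (Nat.mul_le_mul hk hk)
    exact_mod_cast h4
  have h5 : ((2 : ℝ) ^ E) ^ k ≤ 2 ^ (E * m) := by
    rw [← pow_mul]
    exact pow_le_pow_right₀ (by norm_num) (Nat.mul_le_mul le_rfl hk)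
  exact mul_le_mul h3 h5 (by positivity) (by positivity)

/-- The values of the minors. -/
theorem val_det (x : Fin N → ℝ) (F : Matrix (Fin m) (Fin n) (MvPolynomial (Fin N) ℤ)) {k : ℕ}
    (f : Fin k → Fin m) (g : Fin k → Fin n) :
    ((ev x F).submatrix f g).det = val x (F.submatrix f g).det := by
  unfold val
  rw [AlgHom.map_det]
  rfl

/-- The degrees of the minors. -/
theorem deg_det {s : ℕ} {F : Matrix (Fin m) (Fin n) (MvPolynomial (Fin N) ℤ)}
    (hF : ∀ i j, (F i j).totalDegree ≤ s) {k : ℕ} (hk : k ≤ m)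
    (f : Fin k → Fin m) (g : Fin k → Fin n) : (F.submatrix f g).det.totalDegree ≤ m * s := by
  rw [Matrix.det_apply]
  refine MvPolynomial.totalDegree_finsetSum_le fun σ _ => ?_
  have h1 : (Equiv.Perm.sign σ • ∏ i, (F.submatrix f g) (σ i) i).totalDegree ≤
      (∏ i, (F.submatrix f g) (σ i) i).totalDegree := by
    rcases Int.units_eq_one_or (Equiv.Perm.sign σ) with h | h
    · rw [h, one_smul]
    · rw [h, Units.neg_smul, one_smul, MvPolynomial.totalDegree_neg]
  refine h1.trans ((MvPolynomial.totalDegree_finsetProd _ _).trans ?_)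
  calc ∑ i, ((F.submatrix f g) (σ i) i).totalDegree ≤ ∑ _i : Fin k, s :=
        Finset.sum_le_sum fun i _ => hF _ _
    _ = k * s := by simp
    _ ≤ m * s := Nat.mul_le_mul hk le_rfl

theorem two_pow_inv (t c : ℕ) : (2 ^ c : ENNReal) * (2 ^ (t + c))⁻¹ = (2 ^ t)⁻¹ := by
  rw [pow_add, ENNReal.mul_inv (Or.inr (by finiteness)) (Or.inr (by positivity)), mul_comm,
    mul_assoc, ENNReal.inv_mul_cancel (by positivity) (by finiteness), mul_one]

/-- The number of extra bits of safety. -/
def extra (m n N s : ℕ) : ℕ := N + (m + (m + n) * m + m + s) + 1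

/-- The size of the minors. -/
def rad (m N s t : ℕ) : ℕ :=
  (s * (t + 1) + 1) * (m * s) + (m * m + (s * N + s + s * (t + 1) * s) * m)

theorem good_minors {s t : ℕ} {F : Matrix (Fin m) (Fin n) (MvPolynomial (Fin N) ℤ)}
    (hF : ∀ i j, Size s (F i j)) {x : Fin N → ℝ} (h1 : ∀ l, |x l| ≤ 2 ^ (s * (t + 1)))
    (h2 : ∀ (k : ℕ), k ≤ m → ∀ (f : Fin k → Fin m) (g : Fin k → Fin n),
      (F.submatrix f g).det ≠ 0 →
      ((2 ^ (s * (t + 1) + 1) : ℝ)⁻¹) ^ (m * s) ≤ |val x (F.submatrix f g).det|) :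
    Minors (rad m N s t) (ev x F) := by
  intro k hk f g hne
  have e := val_det x F f g
  have hq : (F.submatrix f g).det ≠ 0 := by
    intro h
    apply hne
    rw [e, h]
    unfold val
    rw [map_zero]
  constructor
  · rw [e]
    refine le_trans ?_ (h2 k hk f g hq)
    rw [inv_pow, ← pow_mul]
    refine inv_anti₀ (by positivity) (pow_le_pow_right₀ (by norm_num) ?_)
    unfold rad
    omega
  · refine (minor_le (E := s * N + s + s * (t + 1) * s) (fun i j => ?_) hk f g).trans ?_
    · refine (val_le (hF i j) (one_le_pow₀ (by norm_num)) h1).trans (le_of_eq ?_)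
      rw [← pow_mul, ← pow_add]
    · refine pow_le_pow_right₀ (by norm_num) ?_
      unfold rad
      omega

/-- **All nonzero minors are neither small nor large**, with high probability. -/
theorem minors_prob (s t : ℕ) (μ : Fin N → Measure ℝ) [∀ l, IsProbabilityMeasure (μ l)]
    (hμ : ∀ l, Spread s (μ l)) (F : Matrix (Fin m) (Fin n) (MvPolynomial (Fin N) ℤ))
    (hF : ∀ i j, Size s (F i j)) :
    Measure.pi μ {x | ¬ Minors (rad m N s (t + extra m n N s)) (ev x F)} ≤ (2 ^ t)⁻¹ := by
  classical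
  obtain ⟨t', ht'⟩ : ∃ t', t' = t + extra m n N s := ⟨_, rfl⟩
  rw [← ht']
  obtain ⟨w, hw⟩ : ∃ w : ENNReal, w = (2 ^ t')⁻¹ := ⟨_, rfl⟩
  obtain ⟨U, hU⟩ : ∃ U : Fin N → Set (Fin N → ℝ),
    U = fun l => {x | (2 : ℝ) ^ (s * (t' + 1)) < |x l|} := ⟨_, rfl⟩
  obtain ⟨V, hV⟩ : ∃ V : (k : ℕ) → (Fin k → Fin m) → (Fin k → Fin n) → Set (Fin N → ℝ),
    V = fun k f g => {x | (F.submatrix f g).det ≠ 0 ∧
      |val x (F.submatrix f g).det| < ((2 ^ (s * (t' + 1) + 1) : ℝ)⁻¹) ^ (m * s)} := ⟨_, rfl⟩
  have hsub : {x | ¬ Minors (rad m N s t') (ev x F)} ⊆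
      (⋃ l, U l) ∪ ⋃ k ∈ Finset.range (m + 1), ⋃ f, ⋃ g, V k f g := by
    intro x hx
    by_contra hne
    rw [Set.mem_union, not_or] at hne
    obtain ⟨n1, n2⟩ := hne
    apply hx
    refine good_minors hF (fun l => ?_) (fun k hk f g hq => ?_)
    · by_contra h
      rw [not_le] at h
      exact n1 (Set.mem_iUnion.2 ⟨l, by rw [hU]; exact h⟩)
    · by_contra h
      rw [not_le] at h
      apply n2
      simp only [Set.mem_iUnion]
      exact ⟨k, Finset.mem_range.2 (by omega), f, g, by rw [hV]; exact ⟨hq, h⟩⟩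
  have hUm : ∀ l, Measure.pi μ (U l) ≤ w := by
    intro l
    have h1 := (measurePreserving_eval μ l).measure_preimage
      (s := {y : ℝ | (2 : ℝ) ^ (s * (t' + 1)) < |y|})
      (isOpen_lt continuous_const continuous_abs).measurableSet.nullMeasurableSet
    have h2 : U l = Function.eval l ⁻¹' {y : ℝ | (2 : ℝ) ^ (s * (t' + 1)) < |y|} := by
      rw [hU]
      rfl
    rw [h2, h1, hw]
    exact (hμ l t').2
  have hVm : ∀ k, k ≤ m → ∀ f g, Measure.pi μ (V k f g) ≤ (m * s : ℕ) * w := by
    intro k hk f g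
    by_cases hq : (F.submatrix f g).det = 0
    · have : V k f g = ∅ := by
        rw [hV, Set.eq_empty_iff_forall_notMem]
        rintro x ⟨h, -⟩
        exact h hq
      rw [this, measure_empty]
      exact zero_le
    · have h1 := small_val s t' N μ hμ _ (m * s) hq (deg_det (fun i j => (hF i j).1) hk f g)
      rw [← hw] at h1
      refine le_trans (measure_mono ?_) h1
      intro x hx
      rw [hV] at hx
      exact hx.2
  have hsum : Measure.pi μ (⋃ k ∈ Finset.range (m + 1), ⋃ f, ⋃ g, V k f g) ≤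
      ((m + 1) * 2 ^ ((m + n) * m) * (m * s) : ℕ) * w := by
    calc Measure.pi μ (⋃ k ∈ Finset.range (m + 1), ⋃ f, ⋃ g, V k f g)
        ≤ ∑ k ∈ Finset.range (m + 1), Measure.pi μ (⋃ f, ⋃ g, V k f g) :=
          measure_biUnion_finset_le _ _
      _ ≤ ∑ k ∈ Finset.range (m + 1), ((2 ^ ((m + n) * m) * (m * s) : ℕ) : ENNReal) * w := by
          refine Finset.sum_le_sum fun k hk => ?_
          have hk' : k ≤ m := by
            have := Finset.mem_range.1 hk
            omega
          calc Measure.pi μ (⋃ f, ⋃ g, V k f g) ≤ ∑ f, Measure.pi μ (⋃ g, V k f g) :=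
                measure_iUnion_fintype_le _ _
            _ ≤ ∑ _f : Fin k → Fin m, ∑ _g : Fin k → Fin n, ((m * s : ℕ) : ENNReal) * w :=
                Finset.sum_le_sum fun f _ => (measure_iUnion_fintype_le _ _).trans
                  (Finset.sum_le_sum fun g _ => hVm k hk' f g)
            _ = ((m ^ k * n ^ k * (m * s) : ℕ) : ENNReal) * w := by
                simp only [Finset.sum_const, Finset.card_univ, Fintype.card_fun,
                  Fintype.card_fin, nsmul_eq_mul]
                push_cast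
                ring
            _ ≤ ((2 ^ ((m + n) * m) * (m * s) : ℕ) : ENNReal) * w := by
                gcongr
                calc m ^ k * n ^ k ≤ (2 ^ m) ^ k * (2 ^ n) ^ k :=
                      Nat.mul_le_mul (Nat.pow_le_pow_left Nat.lt_two_pow_self.le _)
                        (Nat.pow_le_pow_left Nat.lt_two_pow_self.le _)
                  _ = 2 ^ ((m + n) * k) := by rw [← mul_pow, ← pow_add, ← pow_mul]
                  _ ≤ 2 ^ ((m + n) * m) :=
                      Nat.pow_le_pow_right (by omega) (Nat.mul_le_mul le_rfl hk')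
      _ = ((m + 1) * 2 ^ ((m + n) * m) * (m * s) : ℕ) * w := by
          rw [Finset.sum_const, Finset.card_range, nsmul_eq_mul]
          push_cast
          ring
  have hnum : N + (m + 1) * 2 ^ ((m + n) * m) * (m * s) ≤ 2 ^ extra m n N s := by
    have a1 : (m + 1) * 2 ^ ((m + n) * m) * (m * s) ≤ 2 ^ (m + (m + n) * m + m + s) := by
      calc (m + 1) * 2 ^ ((m + n) * m) * (m * s)
          ≤ 2 ^ m * 2 ^ ((m + n) * m) * (2 ^ m * 2 ^ s) :=
            Nat.mul_le_mul (Nat.mul_le_mul Nat.lt_two_pow_self le_rfl)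
              (Nat.mul_le_mul Nat.lt_two_pow_self.le Nat.lt_two_pow_self.le)
        _ = 2 ^ (m + (m + n) * m + m + s) := by
            rw [← pow_add, ← pow_add, ← pow_add]
            congr 1
            ring
    obtain ⟨a, ha⟩ : ∃ a, a = m + (m + n) * m + m + s := ⟨_, rfl⟩
    unfold extra
    rw [← ha] at a1 ⊢
    have a2 : N ≤ 2 ^ N := Nat.lt_two_pow_self.le
    have a3 : 2 ^ N ≤ 2 ^ (N + a) := Nat.pow_le_pow_right (by omega) (by omega)
    have a4 : 2 ^ a ≤ 2 ^ (N + a) := Nat.pow_le_pow_right (by omega) (by omega)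
    rw [pow_succ]
    omega
  calc Measure.pi μ {x | ¬ Minors (rad m N s t') (ev x F)}
      ≤ Measure.pi μ ((⋃ l, U l) ∪ ⋃ k ∈ Finset.range (m + 1), ⋃ f, ⋃ g, V k f g) :=
        measure_mono hsub
    _ ≤ Measure.pi μ (⋃ l, U l) +
        Measure.pi μ (⋃ k ∈ Finset.range (m + 1), ⋃ f, ⋃ g, V k f g) := measure_union_le _ _
    _ ≤ N * w + ((m + 1) * 2 ^ ((m + n) * m) * (m * s) : ℕ) * w := by
        refine add_le_add ?_ hsum
        refine (measure_iUnion_fintype_le _ _).trans ?_
        refine (Finset.sum_le_sum fun l _ => hUm l).trans (le_of_eq ?_)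
        rw [Finset.sum_const, Finset.card_univ, Fintype.card_fin, nsmul_eq_mul]
    _ = ((N + (m + 1) * 2 ^ ((m + n) * m) * (m * s) : ℕ) : ENNReal) * w := by
        push_cast
        ring
    _ ≤ ((2 ^ extra m n N s : ℕ) : ENNReal) * w := by gcongr
    _ = (2 ^ t)⁻¹ := by
        rw [hw, ht']
        push_cast
        exact two_pow_inv _ _

end

end Pool.Agent.R535.SM
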